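import Pool.Agent.Lib.MP_b5021c_nt.IfaceE4
import Pool.Agent.Lib.MP_b5021c_nt.B.H63.F5c

/-!
# MP_b5021c_nt, board b5, stage 3, rows E4_MXU, E4_MCO (helper7)
-/

set_option linter.unusedSectionVars false

namespace Pool.Agent.B5.H07

open Pool.Agent.B5 Pool.Agent.B5.H63

section lattice

variable {L : Type} [AddCommGroup L] [Module.Free ℤ L] [Module.Finite ℤ L]

theorem satur_mono {K K' : Submodule ℤ L} (h : K ≤ K') : satur K ≤ satur K' :=
  satur_le (h.trans (le_satur K'))

theorem US_sat {O : Type} [CommRing O] (eta : (RO O)ˣ) (S : L) (D : AO O L) : Sat (US eta S D) :=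
  satur_sat _

theorem mem_US {O : Type} [CommRing O] (eta : (RO O)ˣ) (S : L) (D : AO O L) : S ∈ US eta S D :=
  le_satur _ (Submodule.subset_span (Set.mem_insert _ _))

theorem finrank_satur (K : Submodule ℤ L) :
    Module.finrank ℤ (satur K) = Module.finrank ℤ K := by
  refine le_antisymm ?_ (Submodule.finrank_mono (le_satur K))
  have h1 := Submodule.finrank_quotient_add_finrank (K.submoduleOf (satur K))
  have h2 : Module.finrank ℤ (K.submoduleOf (satur K)) = Module.finrank ℤ K :=
    (Submodule.submoduleOfEquivOfLe (le_satur K)).finrank_eq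
  have h3 : Module.finrank ℤ ((satur K) ⧸ K.submoduleOf (satur K)) = 0 := by
    rw [Module.finrank_eq_zero_iff]
    intro x
    obtain ⟨q, rfl⟩ := Submodule.Quotient.mk_surjective _ x
    obtain ⟨n, hn, h⟩ := q.2
    refine ⟨n, hn, ?_⟩
    rw [← Submodule.Quotient.mk_smul, Submodule.Quotient.mk_eq_zero]
    exact h
  omega

/-- adding one vector to a sublattice raises the rank by at most one -/
theorem finrank_sup_le (K : Submodule ℤ L) (a : L) :
    Module.finrank ℤ ((K ⊔ Submodule.span ℤ {a} : Submodule ℤ L)) ≤ Module.finrank ℤ K + 1 := by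
  have h1 := Submodule.rank_add_le_rank_add_rank K (Submodule.span ℤ {a})
  have h2 : Module.finrank ℤ (Submodule.span ℤ ({a} : Set L)) ≤ 1 := by
    have := finrank_span_le_card (R := ℤ) ({a} : Set L)
    simpa using this
  rw [← Module.finrank_eq_rank, ← Module.finrank_eq_rank, ← Module.finrank_eq_rank] at h1
  have h3 : Module.finrank ℤ ((K ⊔ Submodule.span ℤ {a} : Submodule ℤ L)) ≤
      Module.finrank ℤ K + Module.finrank ℤ (Submodule.span ℤ ({a} : Set L)) := by
    exact_mod_cast h1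
  omega

theorem finrank_sup_eq {K : Submodule ℤ L} (hs : Sat K) {a : L} (ha : a ∉ K) :
    Module.finrank ℤ ((K ⊔ Submodule.span ℤ {a} : Submodule ℤ L)) = Module.finrank ℤ K + 1 := by
  refine le_antisymm (finrank_sup_le K a) ?_
  have h : a ∈ K ⊔ Submodule.span ℤ {a} :=
    (le_sup_right : Submodule.span ℤ {a} ≤ _) (Submodule.mem_span_singleton_self a)
  exact finrank_lt_of_sat le_sup_left hs h ha

end lattice

/-- E4_MXU -/
theorem mxu (h3 : F3S) : MxuS := by
  intro O _ _ _ _ P L _ _ _ _ _ phi D eta S hinj hbin hS hmax T hT hTU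
  have hA := h3 O P L phi D S T (eta S) (eta T) hinj hbin hS hT hTU
  have hB : S ∉ US (eta T) T D := by
    intro h
    have h6 : US (eta S) S D ≤ US (eta T) T D := by
      refine hA.trans (satur_le ?_)
      rw [sup_le_iff]
      refine ⟨le_rfl, ?_⟩
      rw [Submodule.span_singleton_le_iff_mem]
      exact h
    have h7 := finrank_lt_of_sat h6 (US_sat _ _ _) (mem_US (eta T) T D) hTU
    have h8 := hmax T hT
    omega
  have hC := h3 O P L phi D T S (eta T) (eta S) hinj hbin hT hS hB
  have hE : satur (US (eta T) T D ⊔ Submodule.span ℤ {S}) =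
      satur (US (eta S) S D ⊔ Submodule.span ℤ {T}) := by
    apply le_antisymm
    · apply satur_le
      rw [sup_le_iff]
      refine ⟨hC, ?_⟩
      rw [Submodule.span_singleton_le_iff_mem]
      exact le_satur _ ((le_sup_left : US (eta S) S D ≤ _) (mem_US _ _ _))
    · apply satur_le
      rw [sup_le_iff]
      refine ⟨hA, ?_⟩
      rw [Submodule.span_singleton_le_iff_mem]
      exact le_satur _ ((le_sup_left : US (eta T) T D ≤ _) (mem_US _ _ _))
  refine ⟨hB, ?_, hE⟩
  have e1 := finrank_sup_eq (US_sat (eta T) T D) hB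
  have e2 := finrank_sup_eq (US_sat (eta S) S D) hTU
  have e3 := finrank_satur (US (eta T) T D ⊔ Submodule.span ℤ {S})
  have e4 := finrank_satur (US (eta S) S D ⊔ Submodule.span ℤ {T})
  rw [hE] at e3
  omega

/-- E4_MCO -/
theorem mco (h1 : F1S) (h2 : F2S) : McoS := by
  classical
  intro O _ _ _ _ P L _ _ _ _ _ phi D S0 S1 e0 e1 hinj hbin m
  have hdis : ∀ i, phi S0 i = 0 ∨ phi S1 i = 0 :=
    h2 O P L phi D S0 S1 e1 hinj hbin m.r0 m.r1 m.m1
  have b0 : Bin phi S0 := hbin _ m.r0.1
  have b1 : Bin phi S1 := hbin _ m.r1.1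
  have n0 : S0 ≠ 0 := m.r0.2.1
  have n1 : S1 ≠ 0 := m.r1.2.1
  have f0 := (h1 O P L phi D S0 e0 hinj hbin b0 n0 S1 m.m0).2 (fun i => (hdis i).symm)
  have f1 := (h1 O P L phi D S1 e1 hinj hbin b1 n1 S0 m.m1).2 hdis
  rw [add_comm S1 S0] at f0
  have hex : ∀ S : L, Bin phi S → S ≠ 0 → ∃ i, phi S i = 1 := by
    intro S hb hn
    by_contra hcon
    push Not at hcon
    apply hn
    apply hinj
    rw [map_zero]
    funext i
    exact (hb i).resolve_right (hcon i)
  obtain ⟨i0, hi0⟩ := hex S0 b0 n0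
  obtain ⟨i1, hi1⟩ := hex S1 b1 n1
  have hT : co phi i0 S1 = 0 := by
    change phi S1 i0 = 0
    rcases hdis i0 with h | h
    · omega
    · exact h
  refine ⟨hdis, ?_, ?_, ⟨⟨i0, hi0, ⟨S1, hT⟩, rfl, i1, co (phK phi (co phi i0)) i1,
    fun a => rfl, hi1⟩⟩⟩
  · linear_combination (e1 : RO O) * f0 - (e0 : RO O) * f1
  · linear_combination (e0 : RO O) * f1

end Pool.Agent.B5.H07
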