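import Pool.Agent.Lib.MP_b5021c_nt.E.H07.Mxu
import Pool.Agent.Lib.MP_b5021c_nt.IfaceS2

/-!
# MP_b5021c_nt, board b5, stage 3, rows E4_F5M, E4_SL4 (helper7)

The proof of `f5m` is helper63's proof of `F5S` (B/H63/F5c.lean) with two more clauses; that of
`sl4` follows helper84's proof of `Fl2S` (B/H84/Fl2.lean).
-/

set_option linter.unusedSectionVars false

namespace Pool.Agent.B5.H07

open Pool.Agent.B5 Pool.Agent.B5.H63

/-- E4_F5M -/
theorem f5m (h1 : F1S) (h2 : F2S) (h3 : F3S) : F5mS := by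
  classical
  intro O _ _ _ _ P L _ _ _ _ _ phi D eta hinj hbin hex hrk
  have hUsat : ∀ b, Sat (US (eta b) b D) := fun b => satur_sat _
  have hself : ∀ b, b ∈ US (eta b) b D := fun b =>
    le_satur _ (Submodule.subset_span (Set.mem_insert _ _))
  -- the first ray
  have hfin : {b : L | Ray D b}.Finite := by
    refine (D.coeff.support.finite_toSet).subset fun b hb => ?_
    exact Finsupp.mem_support_iff.mpr hb.1
  obtain ⟨S0, hS0, hmax⟩ := Set.exists_max_image {b : L | Ray D b}
    (fun b => Module.finrank ℤ (US (eta b) b D)) hfin hex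
  obtain ⟨g, b, hbW, hg, hli⟩ := exists_basis_mod (US (eta S0) S0 D) {b : L | Ray D b} hrk
  set U0 := US (eta S0) S0 D with hU0
  have hmk : ∀ a : L, U0.mkQ a = 0 ↔ a ∈ U0 := fun a => by
    rw [Submodule.mkQ_apply, Submodule.Quotient.mk_eq_zero]
  have hA : ∀ i, b i ∉ U0 := fun i h => hli.ne_zero i ((hmk _).mpr h)
  have hB : ∀ i, S0 ∉ US (eta (b i)) (b i) D := by
    intro i h
    have h5 := h3 O P L phi D S0 (b i) (eta S0) (eta (b i)) hinj hbin hS0 (hbW i) (hA i)
    have h6 : U0 ≤ US (eta (b i)) (b i) D := by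
      refine h5.trans (satur_le ?_)
      rw [sup_le_iff]
      refine ⟨le_rfl, ?_⟩
      rw [Submodule.span_singleton_le_iff_mem]
      exact h
    have h7 := finrank_lt_of_sat h6 (hUsat S0) (hself (b i)) (hA i)
    have h8 := hmax (b i) (hbW i)
    omega
  have hC : ∀ i, US (eta (b i)) (b i) D ≤ satur (U0 ⊔ Submodule.span ℤ {b i}) := fun i =>
    h3 O P L phi D (b i) S0 (eta (b i)) (eta S0) hinj hbin (hbW i) hS0 (hB i)
  have hD : ∀ i a, a ∈ US (eta (b i)) (b i) D →
      ∃ n c : ℤ, n ≠ 0 ∧ n • U0.mkQ a = c • U0.mkQ (b i) := by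
    intro i a ha
    obtain ⟨n, hn, h⟩ := hC i ha
    rw [Submodule.mem_sup] at h
    obtain ⟨x, hx, y, hy, hxy⟩ := h
    rw [Submodule.mem_span_singleton] at hy
    obtain ⟨c, rfl⟩ := hy
    refine ⟨n, c, hn, ?_⟩
    rw [← map_smul, ← hxy, map_add, (hmk x).mpr hx, zero_add, map_smul]
  have hlin : ∀ x : Fin g → ℤ, ∑ i, x i • U0.mkQ (b i) = 0 → ∀ i, x i = 0 :=
    Fintype.linearIndependent_iff.mp hli
  -- all rays
  set S : Fin (g + 1) → L := Fin.cons S0 b with hS
  have hSz : S 0 = S0 := rfl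
  have hSs : ∀ i : Fin g, S i.succ = b i := fun i => rfl
  have hray : ∀ i, Ray D (S i) := by
    intro i
    refine Fin.cases ?_ (fun i => ?_) i
    · exact hS0
    · exact hbW i
  have hsum : ∀ I : Finset (Fin (g + 1)), U0.mkQ (∑ i ∈ I, S i) =
      ∑ i : Fin g, (if i.succ ∈ I then (1 : ℤ) else 0) • U0.mkQ (b i) := by
    intro I
    have e1 : ∑ i ∈ I, S i = ∑ i : Fin (g + 1), (if i ∈ I then (1 : ℤ) else 0) • S i := by
      simp only [ite_smul, one_smul, zero_smul]
      rw [Finset.sum_ite_mem, Finset.univ_inter]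
    rw [e1, Fin.sum_univ_succ, map_add, map_smul, hSz,
      (hmk S0).mpr (hself S0), smul_zero, zero_add, map_sum]
    refine Finset.sum_congr rfl fun i _ => ?_
    rw [map_smul, hSs]
  have hE : ∀ (I : Finset (Fin (g + 1))) (j : Fin (g + 1)), I.Nonempty → j ∉ I →
      ∑ i ∈ I, S i ∉ US (eta (S j)) (S j) D := by
    intro I j hI
    refine Fin.cases ?_ (fun j => ?_) j
    · intro hj h
      have h5 := (hmk _).mpr h
      rw [hsum] at h5
      have h6 := hlin _ h5
      obtain ⟨i, hi⟩ := hI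
      obtain ⟨i', rfl⟩ := Fin.exists_succ_eq.mpr (fun h : i = 0 => hj (h ▸ hi))
      have h7 := h6 i'
      rw [if_pos hi] at h7
      exact one_ne_zero h7
    · intro hj h
      by_cases hI0 : ∃ i : Fin g, i.succ ∈ I
      · obtain ⟨i, hi⟩ := hI0
        obtain ⟨n, c, hn, h5⟩ := hD j _ h
        have hij : i ≠ j := fun h => hj (h ▸ hi)
        have h6 : ∑ k : Fin g, (n * (if k.succ ∈ I then (1 : ℤ) else 0) -
            (if k = j then c else 0)) • U0.mkQ (b k) = 0 := by
          simp only [sub_smul]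
          rw [Finset.sum_sub_distrib]
          have e1 : ∑ k : Fin g, (if k = j then c else 0) • U0.mkQ (b k) = c • U0.mkQ (b j) := by
            simp [ite_smul]
          have e2 : ∑ k : Fin g, (n * (if k.succ ∈ I then (1 : ℤ) else 0)) • U0.mkQ (b k) =
              n • U0.mkQ (∑ i ∈ I, S i) := by
            rw [hsum, Finset.smul_sum]
            refine Finset.sum_congr rfl fun k _ => ?_
            rw [mul_smul]
          rw [e1, e2, h5, sub_self]
        have h7 := hlin _ h6 i
        rw [if_pos hi, if_neg hij] at h7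
        apply hn
        linarith
      · push Not at hI0
        have h5 : I = {0} := by
          rw [Finset.eq_singleton_iff_nonempty_unique_mem]
          refine ⟨hI, fun i hi => ?_⟩
          by_contra h0
          obtain ⟨i', rfl⟩ := Fin.exists_succ_eq.mpr h0
          exact hI0 i' hi
        rw [h5, Finset.sum_singleton] at h
        exact hB j h
  have hnot : ∀ i j, i ≠ j → S j ∉ US (eta (S i)) (S i) D := by
    intro i j hij
    have := hE {j} i (Finset.singleton_nonempty j) (by rw [Finset.mem_singleton]; exact hij)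
    rwa [Finset.sum_singleton] at this
  have hdis : ∀ i j, i ≠ j → ∀ p, phi (S i) p = 0 ∨ phi (S j) p = 0 := fun i j hij =>
    h2 O P L phi D (S i) (S j) (eta (S j)) hinj hbin (hray i) (hray j) (hnot j i hij.symm)
  have hSb : ∀ i, Bin phi (S i) := fun i => hbin _ (hray i).1
  have hS1 : ∀ i, S i ≠ 0 := fun i => (hray i).2.1
  have hstep : ∀ (I : Finset (Fin (g + 1))) (j : Fin (g + 1)), I.Nonempty → j ∉ I →
      D.coeff (∑ i ∈ I, S i) + (eta (S j) : RO O) * D.coeff (∑ i ∈ I, S i + S j) = 0 := by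
    intro I j hI hj
    refine (h1 O P L phi D (S j) (eta (S j)) hinj hbin (hSb j) (hS1 j) _ (hE I j hI hj)).2 ?_
    intro p
    by_cases hp : phi (S j) p = 0
    · exact Or.inr hp
    · left
      rw [map_sum, Finset.sum_apply]
      refine Finset.sum_eq_zero fun i hi => ?_
      exact (hdis i j (fun h => hj (h ▸ hi)) p).resolve_right hp
  have hone : ∀ i, (eta (S i) : RO O) * D.coeff (S i) = (eta (S 0) : RO O) * D.coeff (S 0) := by
    intro i
    by_cases hi : i = 0
    · rw [hi]
    · have h5 := hstep {i} 0 (Finset.singleton_nonempty i)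
        (by rw [Finset.mem_singleton]; exact fun h => hi h.symm)
      have h6 := hstep {0} i (Finset.singleton_nonempty 0)
        (by rw [Finset.mem_singleton]; exact hi)
      rw [Finset.sum_singleton] at h5 h6
      rw [add_comm (S 0) (S i)] at h6
      linear_combination (eta (S i) : RO O) * h5 - (eta (S 0) : RO O) * h6
  have hlast : ∀ j k : Fin (g + 1), j ≠ 0 → k ≠ 0 → j ≠ k →
      S k ∉ satur (US (eta (S 0)) (S 0) D ⊔ Submodule.span ℤ {S j}) := by
    intro j k hj0 hk0 hjk h
    obtain ⟨j', rfl⟩ := Fin.exists_succ_eq.mpr hj0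
    obtain ⟨k', rfl⟩ := Fin.exists_succ_eq.mpr hk0
    rw [hSs, hSs, hSz] at h
    obtain ⟨n, hn, h⟩ := h
    rw [Submodule.mem_sup] at h
    obtain ⟨x, hx, y, hy, hxy⟩ := h
    rw [Submodule.mem_span_singleton] at hy
    obtain ⟨c, rfl⟩ := hy
    have hkj : k' ≠ j' := fun h => hjk (by rw [h])
    have h5 : n • U0.mkQ (b k') = c • U0.mkQ (b j') := by
      rw [← map_smul, ← hxy, map_add, (hmk x).mpr hx, zero_add, map_smul]
    have h6 : ∑ i : Fin g, ((if i = k' then n else 0) - (if i = j' then c else 0)) •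
        U0.mkQ (b i) = 0 := by
      simp only [sub_smul]
      rw [Finset.sum_sub_distrib]
      have e1 : ∑ k : Fin g, (if k = j' then c else 0) • U0.mkQ (b k) = c • U0.mkQ (b j') := by
        simp [ite_smul]
      have e2 : ∑ k : Fin g, (if k = k' then n else 0) • U0.mkQ (b k) = n • U0.mkQ (b k') := by
        simp [ite_smul]
      rw [e1, e2, h5, sub_self]
    have h7 := hlin _ h6 k'
    rw [if_pos rfl, if_neg hkj] at h7
    apply hn
    linarith
  refine ⟨g, S, hray, hdis, hnot, hg, ?_, fun T hT => hmax T hT, hlast⟩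
  intro I
  induction I using Finset.induction_on with
  | empty => intro h; exact absurd h Finset.not_nonempty_empty
  | insert j I hj ih =>
    intro _
    rcases Finset.eq_empty_or_nonempty I with rfl | hI
    · simp [hone j]
    · have h5 := ih hI
      have h6 := hstep I j hI hj
      rw [Finset.prod_insert hj, Finset.sum_insert hj, Finset.card_insert_of_notMem hj,
        add_comm (S j)]
      rw [pow_succ]
      linear_combination (∏ i ∈ I, (eta (S i) : RO O)) * h6 - h5


/-- E4_SL4 -/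
theorem sl4 (h1 : E2S) (h2 : F5mS) (hx : MxuS) (h3 : LMNS) (h4 : DRBS) (h7 : Dr7S)
    (h5 : RkUSS) : Sl4S := by
  intro O _ _ _ _ P L _ _ _ _ _ phi D eta hD htwo hne
  obtain ⟨hz, -, -, -, hrk, -⟩ := h1 O P L phi D hD htwo
  have hex : ∃ b, Ray D b := by
    by_contra hcon
    push Not at hcon
    have h0 : {b | Ray D b} = (∅ : Set L) := by
      ext b
      simp [hcon b]
    have h00 : rk (∅ : Set L) = 0 := by
      unfold rk
      rw [Submodule.span_empty]
      exact finrank_bot ℤ L
    rw [h0, h00] at hrk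
    omega
  obtain ⟨g, S, hRay, hdis, hnot, hfin, hprod, hmax, hind⟩ :=
    h2 O P L phi D eta hD.inj hD.bin hex hrk
  have hbin : ∀ i, Bin phi (S i) := fun i => hD.bin _ (hRay i).1
  have hmut : ∀ i j, i ≠ j → Mut D (S i) (S j) (eta (S i)) (eta (S j)) := fun i j hij =>
    ⟨hRay i, hRay j, hnot i j hij, hnot j i hij.symm⟩
  have hM : ∀ S' : L, Ray D S' → Module.finrank ℤ (US (eta S') S' D) + g = Module.finrank ℤ L →
      ∀ T, Ray D T → T ∉ US (eta S') S' D → Mut D S' T (eta S') (eta T) ∧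
        Module.finrank ℤ (US (eta T) T D) + g = Module.finrank ℤ L := by
    intro S' hS' hd T hT hTU
    have hmax' : ∀ T, Ray D T →
        Module.finrank ℤ (US (eta T) T D) ≤ Module.finrank ℤ (US (eta S') S' D) := by
      intro T hT
      have := hmax T hT
      omega
    obtain ⟨h8, h9, -⟩ := hx O P L phi D eta S' hD.inj hD.bin hS' hmax' T hT hTU
    exact ⟨⟨hS', hT, hTU, h8⟩, by omega⟩
  refine ⟨S 0, g, hRay 0, hfin, ?_, ?_, ?_, ?_, ?_, ?_, ?_⟩
  · intro i0 h
    have h6 := h5 O P L phi D (S 0) i0 h (eta (S 0)) hD.inj hD.bin (hbin 0)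
    omega
  · exact h4 O P L phi D eta g S hD.inj hD.bin hD.st hz hRay hdis hprod (hne _ (hRay 0))
  · rcases Nat.lt_or_ge 4 g with hg | hg
    · exact Or.inr (h7 O P L phi D eta g S hD.inj hD.bin hD.st hz hRay hdis hprod
        (hne _ (hRay 0)) hg)
    · exact Or.inl hg
  · intro hg e he i0 h
    have hj : (0 : Fin (g + 1)) ≠ ⟨1, by omega⟩ := by
      intro hcon
      have := congrArg Fin.val hcon
      simp at this
    have hall : ∀ a ∈ supp D, a ∈ US e (S 0) D :=
      h3 O P L phi D (S 0) (S ⟨1, by omega⟩) (eta (S 0)) (eta (S ⟨1, by omega⟩)) e hD.inj hD.bin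
        (hRay _) (hRay _) (hnot _ _ hj) (hnot _ _ hj.symm) he
    have hle : Module.finrank ℤ L ≤ Module.finrank ℤ (US e (S 0) D) := by
      rw [← hD.spn]
      exact Submodule.finrank_mono (Submodule.span_le.mpr hall)
    have hge : Module.finrank ℤ (US e (S 0) D) ≤ Module.finrank ℤ L := Submodule.finrank_le _
    have h6 := h5 O P L phi D (S 0) i0 h e hD.inj hD.bin (hbin 0)
    omega
  · intro hg
    have hj : (0 : Fin (g + 1)) ≠ ⟨1, by omega⟩ := by
      intro hcon
      have := congrArg Fin.val hcon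
      simp at this
    exact ⟨_, hmut _ _ hj⟩
  · intro hg
    have hj1 : (⟨1, by omega⟩ : Fin (g + 1)) ≠ 0 := by
      intro hcon
      have := congrArg Fin.val hcon
      simp at this
    have hj2 : (⟨2, by omega⟩ : Fin (g + 1)) ≠ 0 := by
      intro hcon
      have := congrArg Fin.val hcon
      simp at this
    have hj3 : (⟨1, by omega⟩ : Fin (g + 1)) ≠ ⟨2, by omega⟩ := by
      intro hcon
      have := congrArg Fin.val hcon
      simp at this
    obtain ⟨-, -, e1⟩ := hx O P L phi D eta (S 0) hD.inj hD.bin (hRay 0) hmax _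
      (hRay ⟨1, by omega⟩) (hnot _ _ hj1.symm)
    obtain ⟨-, -, e2⟩ := hx O P L phi D eta (S 0) hD.inj hD.bin (hRay 0) hmax _
      (hRay ⟨2, by omega⟩) (hnot _ _ hj2.symm)
    refine ⟨_, _, hmut _ _ hj1.symm, hmut _ _ hj2.symm, ?_, ?_⟩
    · rw [e1]
      exact hind _ _ hj1 hj2 hj3
    · rw [e2]
      exact hind _ _ hj2 hj1 hj3.symm
  · intro T hT hTU
    obtain ⟨h8, h9⟩ := hM (S 0) (hRay 0) hfin T hT hTU
    exact ⟨h8, h9, fun T' hT' hT'U => (hM T hT h9 T' hT' hT'U).1⟩

end Pool.Agent.B5.H07
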