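import Pool.Agent.Lib.MP_b5021c_nt.IfaceAM
import Pool.Agent.Lib.MP_b5021c_nt.B.H24.B5u
import Pool.Agent.Lib.MP_b5021c_nt.B.H59.CstA

/-!
# Board b5, row AM_TOP: the largest exponent
-/

namespace Pool.Agent.B5.H07

open scoped LaurentPolynomial

section

variable {O : Type} [CommRing O] [IsDomain O] [IsPrincipalIdealRing O] [Coef O] {P : Type}
  [Fintype P] [DecidableEq P] {L : Type} [AddCommGroup L] [Module.Free ℤ L] [Module.Finite ℤ L]

/-- The reversal of a unitary element. -/
theorem reversal (hU : UnitAS) (D : AO O L) (hun : Unitary D) :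
    ∃ (t : L) (u : (RO O)ˣ), ∀ a : L, D.coeff (t - a) = (u : RO O) * rsh (D.coeff a) := by
  obtain ⟨w, hw⟩ := hun
  obtain ⟨t, c, ⟨c', hc'⟩, htc⟩ := (hU O L (w : AO O L)).1 w.isUnit
  rw [htc] at hw
  refine ⟨t, c', fun a => ?_⟩
  have h2 : (sharp D * AddMonoidAlgebra.single t c).coeff (t - a) = (sharp D).coeff (-a) * c := by
    rw [AddMonoidAlgebra.coeff_mul_single_eq_coeff_mul (-a)]
    intro m' _
    constructor
    · intro h3
      have h4 : m' + t - t = t - a - t := by rw [h3]
      rw [add_sub_cancel_right] at h4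
      rw [h4]
      abel
    · intro h3
      rw [h3]
      abel
  rw [hw, sharp_coeff', neg_neg] at h2
  rw [h2, hc', mul_comm]

/-- (AM_TOP) -/
theorem top (hU : UnitAS) (hV : VcoS) (hRk : RkS) : TopS := by
  classical
  intro O _ _ _ _ P L _ _ _ _ _ phi D hD _
  obtain ⟨t, u, hrev⟩ := reversal hU D hD.un
  have h0 : D.coeff 0 ≠ 0 := hD.st.1
  have hmem : ∀ a ∈ supp D, t - a ∈ supp D := by
    intro a ha h
    rw [hrev] at h
    have h1 := (mul_eq_zero.mp h).resolve_left u.ne_zero
    exact ha (Pool.Agent.B5.H59.rsh_eq_zero.mp h1)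
  have ht : t ∈ supp D := by
    have h1 := hmem 0 h0
    rwa [sub_zero] at h1
  have hport : ∀ i, co phi i ≠ 0 → phi t i = 1 := by
    intro i hi
    by_contra hne
    have ht0 : phi t i = 0 := (hD.bin t ht i).resolve_right hne
    have hz : ∀ a ∈ supp D, phi a i = 0 := by
      intro a ha
      have h1 := hD.bin a ha i
      have h2 := hD.bin _ (hmem a ha) i
      rw [map_sub, Pi.sub_apply, ht0] at h2
      omega
    have hspan : Submodule.span ℤ (supp D) ≤ Ker (co phi i) := by
      rw [Submodule.span_le]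
      intro a ha
      exact hz a ha
    have h1 : Module.finrank ℤ (Ker (co phi i)) + 1 = Module.finrank ℤ L :=
      (hRk L L).1 (co phi i) hi
    have h2 := Submodule.finrank_mono hspan
    have h3 : Module.finrank ℤ (Submodule.span ℤ (supp D)) = Module.finrank ℤ L := hD.spn
    omega
  refine ⟨t, u, hrev, hport, fun S eta hS hv0 => ?_⟩
  have hSb : Bin phi S := hD.bin S hS.1
  obtain ⟨-, -, hv, -, -⟩ := hV O P L phi D S eta hD.inj hD.bin hSb hS.2.1
  have hdis : ∀ i, phi (t - S) i = 0 ∨ phi S i = 0 := by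
    intro i
    rw [map_sub, Pi.sub_apply]
    rcases hSb i with h | h
    · exact Or.inr h
    · left
      have h2 : co phi i ≠ 0 := by
        intro h3
        have h4 : co phi i S = 0 := by rw [h3]; rfl
        have h5 : phi S i = 0 := h4
        omega
      rw [hport i h2, h]
      rfl
  have h1 := hv (t - S) hdis
  have h2 : vco eta S D (t - S) = (u : RO O) * (eta : RO O) *
      rsh (D.coeff 0 + (eta : RO O) * D.coeff S) := by
    rw [h1, hrev S, sub_add_cancel]
    have h3 := hrev 0
    rw [sub_zero] at h3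
    rw [h3, map_add, map_mul]
    have h4 := Pool.Agent.B5.H24.rsh_unit eta
    linear_combination (-(u : RO O) * rsh (D.coeff S)) * h4
  have h3 : vco eta S D (t - S) ≠ 0 := by
    rw [h2]
    refine mul_ne_zero (mul_ne_zero u.ne_zero eta.ne_zero) fun h => hv0 ?_
    exact Pool.Agent.B5.H59.rsh_eq_zero.mp h
  have h4 : t - S ∈ LamS eta S D := Submodule.subset_span (Or.inr h3)
  have h5 : S ∈ LamS eta S D := Submodule.subset_span (Or.inl rfl)
  have h6 := (LamS eta S D).add_mem h4 h5
  rwa [sub_add_cancel] at h6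

end

end Pool.Agent.B5.H07
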