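import Pool.Agent.Lib.MP_b5021c_nt.E.H07.Mcl
import Pool.Agent.Lib.MP_b5021c_nt.IfaceS1

/-!
# Board b5: multiple closings, rank, ports, factors
-/

set_option linter.unusedSectionVars false

namespace Pool.Agent.B5

open scoped LaurentPolynomial

/-- The marking of the exponents of a multiple closing by the ports outside all `Z i`. -/
def phM {ι : Type} [Fintype ι] [DecidableEq ι] {P : Type} {L : Type} [AddCommGroup L]
    {phi : L →+ (P → ℤ)} {Z : ι → L} (X : Mp phi Z) : KK X →+ (P → ℤ) := by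
  classical
  exact
  { toFun := fun b j => if ∀ i, phi (Z i) j = 0 then phi (b : L) j else 0
    map_zero' := by
      funext j
      simp
    map_add' := fun a b => by
      funext j
      by_cases h : ∀ i, phi (Z i) j = 0 <;> simp [h] }

theorem phM_pos {ι : Type} [Fintype ι] [DecidableEq ι] {P : Type} {L : Type} [AddCommGroup L]
    {phi : L →+ (P → ℤ)} {Z : ι → L} (X : Mp phi Z) (b : KK X) (j : P)
    (h : ∀ i, phi (Z i) j = 0) : phM X b j = phi (b : L) j := by
  classical
  change (if ∀ i, phi (Z i) j = 0 then phi (b : L) j else 0) = _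
  rw [if_pos h]

theorem phM_neg {ι : Type} [Fintype ι] [DecidableEq ι] {P : Type} {L : Type} [AddCommGroup L]
    {phi : L →+ (P → ℤ)} {Z : ι → L} (X : Mp phi Z) (b : KK X) (j : P)
    (h : ¬ ∀ i, phi (Z i) j = 0) : phM X b j = 0 := by
  classical
  change (if ∀ i, phi (Z i) j = 0 then phi (b : L) j else 0) = _
  rw [if_neg h]

namespace H07

section

variable {ι : Type} [Fintype ι] [DecidableEq ι] {O : Type} [CommRing O] [IsDomain O]
  [IsPrincipalIdealRing O] [Coef O] {P : Type} [Fintype P] [DecidableEq P] {L : Type}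
  [AddCommGroup L] [Module.Free ℤ L] [Module.Finite ℤ L]

/-- The splitting `L = KK × ℤ^ι`. -/
def mpEquiv {phi : L →+ (P → ℤ)} {Z : ι → L} (X : Mp phi Z) : L ≃ₗ[ℤ] (KK X × (ι → ℤ)) where
  toFun a := (mpr X a, fun i => phi a (X.p i))
  map_add' a b := by
    apply Prod.ext
    · exact map_add (mpr X) a b
    · funext i
      change phi (a + b) (X.p i) = phi a (X.p i) + phi b (X.p i)
      rw [map_add, Pi.add_apply]
  map_smul' c a := by
    apply Prod.ext
    · exact map_zsmul (mpr X) c a
    · funext i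
      change phi (c • a) (X.p i) = c * phi a (X.p i)
      rw [map_zsmul, Pi.smul_apply, smul_eq_mul]
  invFun x := (x.1 : L) + ∑ i, x.2 i • Z i
  left_inv a := by
    change ((mpr X a : KK X) : L) + ∑ i, phi a (X.p i) • Z i = a
    rw [mpr_coe, sub_add_cancel]
  right_inv x := by
    have h1 : ∀ j, phi ((x.1 : L) + ∑ i, x.2 i • Z i) (X.p j) = x.2 j := by
      intro j
      rw [map_add, Pi.add_apply, x.1.2 j, zero_add, map_sum, Finset.sum_apply,
        Finset.sum_eq_single j]
      · rw [map_zsmul, Pi.smul_apply, smul_eq_mul, X.hp j j, if_pos rfl, mul_one]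
      · intro i _ hij
        rw [map_zsmul, Pi.smul_apply, smul_eq_mul, X.hp j i, if_neg (Ne.symm hij), mul_zero]
      · intro h
        exact absurd (Finset.mem_univ j) h
    apply Prod.ext
    · apply Subtype.ext
      change (x.1 : L) + ∑ i, x.2 i • Z i - ∑ i, phi ((x.1 : L) + ∑ i, x.2 i • Z i) (X.p i) • Z i =
        (x.1 : L)
      have h2 : ∑ i, phi ((x.1 : L) + ∑ i, x.2 i • Z i) (X.p i) • Z i = ∑ i, x.2 i • Z i :=
        Finset.sum_congr rfl fun i _ => by rw [h1 i]
      rw [h2]
      abel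
    · funext j
      exact h1 j

theorem finrank_KK {phi : L →+ (P → ℤ)} {Z : ι → L} (X : Mp phi Z) :
    Module.finrank ℤ (KK X) + Fintype.card ι = Module.finrank ℤ L := by
  rw [(mpEquiv X).finrank_eq, Module.finrank_prod, Module.finrank_fintype_fun_eq_card]

/-- (M4) the rank of a multiple closing. -/
theorem mcl_rank (hK : KmuS) (hRk : RkS) {phi : L →+ (P → ℤ)} {Z : ι → L} (X : Mp phi Z)
    (s : ι → (RO O)ˣ) (D : AO O L) :
    rk (supp (mcl X s D)) + Fintype.card ι = Module.finrank ℤ L ↔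
      ∀ nu : L →+ ℤ, (∀ i, nu (Z i) = 0) → (∀ b : KK X, (mcl X s D).coeff b ≠ 0 → nu b = 0) →
        nu = 0 := by
  have hfr := finrank_KK X
  have hmp : ∀ (nu : L →+ ℤ), (∀ i, nu (Z i) = 0) → ∀ a, nu a = nu ((mpr X a : KK X) : L) := by
    intro nu hnu a
    rw [mpr_coe, map_sub, map_sum, Finset.sum_eq_zero (fun i _ => by
      rw [map_zsmul, hnu i, smul_zero]), sub_zero]
  constructor
  · intro h nu hnu hb
    by_contra hne
    have h1 : nu.comp (incl (KK X)) ≠ 0 := by
      intro h2
      apply hne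
      ext a
      rw [hmp nu hnu a]
      exact DFunLike.congr_fun h2 (mpr X a)
    have h2 := (hRk (KK X) (KK X)).1 _ h1
    have h3 : Submodule.span ℤ (supp (mcl X s D)) ≤ Ker (nu.comp (incl (KK X))) := by
      rw [Submodule.span_le]
      intro b hb'
      exact hb b hb'
    have h4 := Submodule.finrank_mono h3
    have h5 : rk (supp (mcl X s D)) = Module.finrank ℤ (Submodule.span ℤ (supp (mcl X s D))) := rfl
    omega
  · intro h
    by_contra hne
    have h1 : rk (supp (mcl X s D)) ≤ Module.finrank ℤ (KK X) :=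
      (hRk (KK X) (KK X)).2.2.1 _
    have h2 : rk (supp (mcl X s D)) < Module.finrank ℤ (KK X) := by omega
    obtain ⟨mu, hmu, hmu0⟩ := hK (KK X) _ h2
    apply hmu
    have h3 := h (mu.comp (mpr X)) (fun i => by
      rw [AddMonoidHom.comp_apply, mpr_Z, map_zero]) (fun b hb => by
      rw [AddMonoidHom.comp_apply, mpr_self]
      exact hmu0 b hb)
    ext b
    have h4 := DFunLike.congr_fun h3 (b : L)
    rw [AddMonoidHom.comp_apply, mpr_self] at h4
    exact h4

/-- (M5) the ports outside the `Z i` are injective on the closed element (facet ports). -/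
theorem mcl_inj (hF : FspS) {phi : L →+ (P → ℤ)} {D : AO O L} (hD : FP phi D) {Z : ι → L}
    (X : Mp phi Z) (hZs : ∀ i, Z i ∈ supp D) (lam : L →+ ℤ) (hZ : ∀ i, lam (Z i) = 0)
    (hlam : ∀ a ∈ supp D, mpr X a ≠ 0 → 0 < lam a) : Function.Injective (phM X) := by
  set K : Submodule ℤ L := Submodule.span ℤ (Set.range Z) with hK
  have hKm : ∀ a ∈ K, mpr X a = 0 := by
    intro a ha
    have h1 : K ≤ LinearMap.ker (mpr X).toIntLinearMap := by
      rw [hK, Submodule.span_le]
      rintro _ ⟨i, rfl⟩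
      exact mpr_Z X i
    exact h1 ha
  have hmK : ∀ a : L, mpr X a = 0 → a ∈ K := by
    intro a ha
    have h1 := congrArg (fun b : KK X => (b : L)) ha
    rw [mpr_coe] at h1
    rw [sub_eq_zero.mp h1]
    exact K.sum_mem fun i _ => K.smul_mem _ (Submodule.subset_span ⟨i, rfl⟩)
  have hSat : Sat K := by
    intro n a hn hna
    apply hmK
    have h1 := hKm _ hna
    rw [map_zsmul] at h1
    exact (smul_eq_zero.mp h1).resolve_left hn
  have hlamK : ∀ a ∈ K, lam a = 0 := by
    intro a ha
    have h1 := congrArg (fun b : KK X => (b : L)) (hKm a ha)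
    rw [mpr_coe] at h1
    rw [sub_eq_zero.mp h1, map_sum]
    exact Finset.sum_eq_zero fun i _ => by rw [map_zsmul, hZ i, smul_zero]
  have hrk : rk {a | a ∈ supp D ∧ a ∈ K} = Module.finrank ℤ K := by
    have h1 : Submodule.span ℤ {a | a ∈ supp D ∧ a ∈ K} = K := by
      apply le_antisymm
      · rw [Submodule.span_le]
        exact fun a ha => ha.2
      · rw [hK, Submodule.span_le]
        rintro _ ⟨i, rfl⟩
        exact Submodule.subset_span ⟨hZs i, Submodule.subset_span ⟨i, rfl⟩⟩
    unfold rk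
    rw [h1]
  have hfs := hF O P L phi D hD K lam hSat hlamK
    (fun a ha haK => hlam a ha fun h => haK (hmK a h)) hrk
  rw [injective_iff_map_eq_zero]
  intro b hb
  by_contra hb0
  have hbK : (b : L) ∉ K := by
    intro h
    apply hb0
    have h1 := hKm _ h
    rwa [mpr_self] at h1
  obtain ⟨j, hj, hbj⟩ := hfs (b : L) hbK
  apply hbj
  have h1 : ∀ i, phi (Z i) j = 0 := fun i => hj _ (Submodule.subset_span ⟨i, rfl⟩)
  rw [← phM_pos X b j h1, hb]
  rfl

/-- The closed element is binary for the ports outside the `Z i`. -/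
theorem mcl_bin {phi : L →+ (P → ℤ)} {D : AO O L} (hD : ∀ a ∈ supp D, Bin phi a) {Z : ι → L}
    (X : Mp phi Z) (s : ι → (RO O)ˣ) : ∀ b ∈ supp (mcl X s D), Bin (phM X) b := by
  intro b hb j
  by_cases h : ∀ i, phi (Z i) j = 0
  · obtain ⟨a, ha, rfl⟩ := mcl_supp X s D b hb
    have h1 : phi ((mpr X a : KK X) : L) j = phi a j := by
      rw [mpr_coe, map_sub, Pi.sub_apply, map_sum, Finset.sum_apply,
        Finset.sum_eq_zero (fun i _ => by
          rw [map_zsmul, Pi.smul_apply, h i, smul_zero]), sub_zero]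
    rw [phM_pos X _ j h, h1]
    exact hD a ha j
  · exact Or.inl (phM_neg X b j h)

end

section

variable {O : Type} [CommRing O] [IsDomain O] [IsPrincipalIdealRing O] [Coef O] {P : Type}
  [Fintype P] [DecidableEq P] {M' : Type} [AddCommGroup M'] [Module.Free ℤ M'] [Module.Finite ℤ M']

/-- (M6) FACTORISATION of a stable, unitary, binary element into a constant and elements of
`DD`. -/
theorem facDD (hFa : FactS) (hW : WWfS) (hC : Coeff0S) (hR : ResWDS) (hRS : ResStS)
    {psi : M' →+ (P → ℤ)} (hpsi : Function.Injective psi) {V : AO O M'}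
    (hV : ∀ a ∈ supp V, Bin psi a) (hst : Stable V) (hun : Unitary V) :
    ∃ (c : RO O) (n : ℕ) (G : Fin n → AO O M'), c ≠ 0 ∧ V = cst c * ∏ i, G i ∧
      V.coeff 0 = c * ∏ i, (G i).coeff 0 ∧ (∀ i, Irreducible (G i) ∧ Wdep (G i) ∧
        Stable (G i) ∧ Unitary (G i) ∧ ∀ a ∈ supp (G i), Bin psi a) ∧
      (∀ i, ∃ K : Submodule ℤ M', Sat K ∧ (∀ a ∈ supp (G i), a ∈ K) ∧
        Module.finrank ℤ K = rk (supp (G i)) ∧ DD (psi.comp (incl K)) (res K (G i))) := by
  classical
  obtain ⟨c, n, G, hc, hVG, hG⟩ := hFa O M' V hst hun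
  obtain ⟨h0, lam, hlam, -⟩ := hst
  have hfull : ∀ i, FullAt lam (G i) := fun i => ((hG i).2.2.2.2 lam).2 hlam
  have hposc : Pos lam (cst c : AO O M') := by
    intro a ha ha0
    rw [Finsupp.mem_support_iff] at ha
    change (AddMonoidAlgebra.single (0 : M') c : AO O M').coeff a ≠ 0 at ha
    rw [AddMonoidAlgebra.coeff_single, Finsupp.single_apply, if_neg (Ne.symm ha0)] at ha
    exact absurd rfl ha
  -- constant coefficients of products
  have hprod : ∀ s : Finset (Fin n), (∏ i ∈ s, G i).coeff 0 = ∏ i ∈ s, (G i).coeff 0 ∧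
      Pos lam (∏ i ∈ s, G i) := by
    intro s
    induction s using Finset.induction_on with
    | empty =>
      refine ⟨?_, ?_⟩
      · rw [Finset.prod_empty, Finset.prod_empty]
        change (AddMonoidAlgebra.single (0 : M') (1 : RO O) : AO O M').coeff 0 = 1
        rw [AddMonoidAlgebra.coeff_single, Finsupp.single_eq_same]
      intro a ha ha0
      rw [Finset.prod_empty, Finsupp.mem_support_iff] at ha
      change (AddMonoidAlgebra.single (0 : M') (1 : RO O) : AO O M').coeff a ≠ 0 at ha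
      rw [AddMonoidAlgebra.coeff_single, Finsupp.single_apply, if_neg (Ne.symm ha0)] at ha
      exact absurd rfl ha
    | insert i s his ih =>
      have h1 := hC O M' (G i) (∏ i ∈ s, G i) lam (hfull i).2.1 ih.2
      rw [Finset.prod_insert his, Finset.prod_insert his]
      exact ⟨by rw [h1.1, ih.1], h1.2⟩
  have hc0 : (cst c : AO O M').coeff 0 = c := by
    change (AddMonoidAlgebra.single (0 : M') c : AO O M').coeff 0 = c
    rw [AddMonoidAlgebra.coeff_single, Finsupp.single_eq_same]
  have hV0 : V.coeff 0 = c * ∏ i, (G i).coeff 0 := by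
    have h1 := hC O M' (cst c) (∏ i, G i) lam hposc (hprod Finset.univ).2
    rw [hVG, h1.1, hc0, (hprod Finset.univ).1]
  have hG0 : ∀ i, (G i).coeff 0 ≠ 0 := fun i => (hfull i).1
  -- factors are binary
  have hWW : ∀ a ∈ supp V, WW psi ∅ Finset.univ a := by
    intro a ha
    refine ⟨fun j _ => hV a ha j, Or.inl fun i hi => absurd hi (Finset.notMem_empty i),
      fun j _ hj => absurd (Finset.mem_univ j) hj⟩
  have hbin : ∀ i, ∀ a ∈ supp (G i), Bin psi a := by
    intro i a ha j
    have h1 : V = G i * (cst c * ∏ l ∈ Finset.univ.erase i, G l) := by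
      rw [hVG, ← Finset.mul_prod_erase Finset.univ G (Finset.mem_univ i)]
      ring
    have h2 : (cst c * ∏ l ∈ Finset.univ.erase i, G l : AO O M').coeff 0 ≠ 0 := by
      have h3 := hC O M' (cst c) (∏ l ∈ Finset.univ.erase i, G l) lam hposc
        (hprod (Finset.univ.erase i)).2
      rw [h3.1, hc0, (hprod _).1]
      exact mul_ne_zero hc (Finset.prod_ne_zero_iff.mpr fun l _ => hG0 l)
    have h3 := hW O P M' psi ∅ Finset.univ (G i) (cst c * ∏ l ∈ Finset.univ.erase i, G l)
      (by rw [← h1]; exact hWW) (hG0 i) h2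
    exact (h3.1 a ha).1 j (Finset.mem_univ j)
  refine ⟨c, n, G, hc, hVG, hV0, fun i => ⟨(hG i).1, (hG i).2.1, (hG i).2.2.1, (hG i).2.2.2.1,
    hbin i⟩, fun i => ?_⟩
  obtain ⟨K, hK, hsub, hfr, hirr, hun', hrk⟩ := hR O M' (G i) (hG i).1.ne_zero
  refine ⟨K, hK, hsub, hfr, ?_⟩
  refine ⟨hpsi.comp fun _ _ hh => Subtype.ext hh, fun a ha => hbin i _ ha, ?_, hun' (hG i).2.2.2.1,
    hirr (hG i).1, by rw [hrk, hfr]⟩
  exact (hRS O M' (G i) K hK hsub).mp (hG i).2.2.1

end

end H07

end Pool.Agent.B5
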