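import Pool.Agent.Lib.MP_b5021c_nt.E.H07.Top
import Pool.Agent.Lib.MP_b5021c_nt.E.H59.Lat
import Pool.Agent.Lib.MP_b5021c_nt.B.H83.I1A
import Pool.Agent.Lib.MP_b5021c_nt.B.H09.E2Tpm

/-!
# Board b5, row AM_RES: the restriction lemma
-/

namespace Pool.Agent.B5.H07

open scoped LaurentPolynomial
open Pool.Agent.B5.H83

section

variable {O : Type} [CommRing O] [IsDomain O] [IsPrincipalIdealRing O] [Coef O] {L : Type}
  [AddCommGroup L]

/-- An element with a reversal is unitary. -/
theorem unitary_of_reversal (hU : UnitAS) [Module.Free ℤ L] [Module.Finite ℤ L] (G : AO O L)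
    (t : L) (u : (RO O)ˣ)
    (h : ∀ a : L, G.coeff (t - a) = (u : RO O) * rsh (G.coeff a)) : Unitary G := by
  obtain ⟨w, hw⟩ := (hU O L (AddMonoidAlgebra.single t (u : RO O))).2 ⟨t, u, u.isUnit, rfl⟩
  refine ⟨w, ?_⟩
  rw [hw]
  apply AddMonoidAlgebra.ext
  apply Finsupp.ext
  intro a
  have h2 : (sharp G * AddMonoidAlgebra.single t (u : RO O)).coeff a =
      (sharp G).coeff (a - t) * (u : RO O) := by
    rw [AddMonoidAlgebra.coeff_mul_single_eq_coeff_mul (a - t)]
    intro m' _
    constructor
    · intro h3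
      rw [← h3, add_sub_cancel_right]
    · intro h3
      rw [h3, sub_add_cancel]
  rw [h2, sharp_coeff', neg_sub]
  have h3 := h (t - a)
  rw [sub_sub_cancel] at h3
  rw [h3, mul_comm]

/-- The slice of a restriction as an average over the characters of `L ⧸ K`. -/
theorem average (K : Submodule ℤ L) [Fintype (L ⧸ K)] [DecidableEq (L ⧸ K)]
    [Fintype (AddChar (L ⧸ K) Circle)] (lam k : L →+ ℤ)
    (z : Circle) (u : AddChar L Circle) (v : AddChar K Circle) (huv : ∀ a : K, u (a : L) = v a)
    (D : AO O L) (hD : ∀ a ∈ supp D, 0 ≤ lam a ∧ 0 ≤ k a) (s : ℂ) :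
    (Fintype.card (L ⧸ K) : ℂ) *
      (sl v ((lam + k).comp (incl K)) (spec z (res K D))).eval s =
    ∑ x : AddChar (L ⧸ K) Circle,
      mev (ι := Fin 2) (u * x.compAddMonoidHom (K.mkQ.toAddMonoidHom)) ![lam, k] ![s, s]
        (spec z D) := by
  classical
  let f : AO O L →+ ℂ :=
    { toFun := fun D => (Fintype.card (L ⧸ K) : ℂ) *
        (sl v ((lam + k).comp (incl K)) (spec z (res K D))).eval s
      map_zero' := by rw [res_zero, map_zero, sl_zero]; simp
      map_add' := fun p q => by rw [res_add, map_add, sl_add, Polynomial.eval_add]; ring }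
  let g : AO O L →+ ℂ :=
    { toFun := fun D => ∑ x : AddChar (L ⧸ K) Circle,
        mev (ι := Fin 2) (u * x.compAddMonoidHom (K.mkQ.toAddMonoidHom)) ![lam, k] ![s, s]
          (spec z D)
      map_zero' := by
        rw [map_zero]
        exact Finset.sum_eq_zero fun x _ => mev_zero _ _ _
      map_add' := fun p q => by
        rw [map_add, ← Finset.sum_add_distrib]
        exact Finset.sum_congr rfl fun x _ => mev_add _ _ _ _ _ }
  refine eq_of_single f g D fun a ha => ?_
  obtain ⟨h1, h2⟩ := hD a ha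
  change (Fintype.card (L ⧸ K) : ℂ) * (sl v ((lam + k).comp (incl K)) (spec z (res K
    (AddMonoidAlgebra.single a (D.coeff a))))).eval s =
    ∑ x : AddChar (L ⧸ K) Circle, mev (ι := Fin 2)
      (u * x.compAddMonoidHom (K.mkQ.toAddMonoidHom)) ![lam, k] ![s, s]
        (spec z (AddMonoidAlgebra.single a (D.coeff a)))
  have hsum : ∑ x : AddChar (L ⧸ K) Circle, ((x (K.mkQ a) : Circle) : ℂ) =
      if K.mkQ a = 0 then (Fintype.card (L ⧸ K) : ℂ) else 0 := by
    rw [← AddChar.sum_apply_eq_ite (K.mkQ a)]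
    exact Fintype.sum_equiv (AddChar.circleEquivComplex (α := L ⧸ K)).toEquiv _ _ fun x => rfl
  have hR : ∀ x : AddChar (L ⧸ K) Circle, mev (ι := Fin 2)
      (u * x.compAddMonoidHom (K.mkQ.toAddMonoidHom)) ![lam, k] ![s, s]
        (spec z (AddMonoidAlgebra.single a (D.coeff a))) =
      (evR z (D.coeff a) * (u a : ℂ) * (s ^ (lam a).toNat * s ^ (k a).toNat)) *
        ((x (K.mkQ a) : Circle) : ℂ) := by
    intro x
    rw [spec_single, mev_single, Fin.prod_univ_two]
    simp only [Matrix.cons_val_zero, Matrix.cons_val_one, AddChar.mul_apply, Circle.coe_mul]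
    change _ * ((u a : ℂ) * ((x (K.mkQ a) : Circle) : ℂ)) * _ = _
    ring
  rw [Finset.sum_congr rfl fun x _ => hR x, ← Finset.mul_sum, hsum]
  by_cases haK : a ∈ K
  · have h3 : K.mkQ a = 0 := by
      rw [Submodule.mkQ_apply, Submodule.Quotient.mk_eq_zero]
      exact haK
    rw [if_pos h3, res_single_mem K a haK, spec_single, sl_single, Polynomial.eval_monomial]
    have h4 : ((lam + k).comp (incl K)) ⟨a, haK⟩ = lam a + k a := rfl
    have h5 : (lam a + k a).toNat = (lam a).toNat + (k a).toNat := Int.toNat_add h1 h2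
    rw [h4, h5, pow_add, ← huv ⟨a, haK⟩]
    ring
  · have h3 : K.mkQ a ≠ 0 := by
      rw [Submodule.mkQ_apply]
      intro h4
      rw [Submodule.Quotient.mk_eq_zero] at h4
      exact haK h4
    rw [if_neg h3, res_single_not K a haK, map_zero, sl_zero]
    simp

omit [IsDomain O] [IsPrincipalIdealRing O] in
/-- The value of a character on `S` is absorbed by the second parameter. -/
theorem shift (k : L →+ ℤ) (S : L) (h : k S = 1) (lam : L →+ ℤ) (z : Circle)
    (w : AddChar L Circle) (D : AO O L) (hb : ∀ a ∈ supp D, k a = 0 ∨ k a = 1) (s y : ℂ) :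
    mev (ι := Fin 2) w ![lam, k] ![s, y] (spec z D) =
      mev (ι := Fin 2) ((w.compAddMonoidHom (incl (Ker k))).compAddMonoidHom (prj k S h)) ![lam, k]
        ![s, y * (w S : ℂ)] (spec z D) := by
  let f : AO O L →+ ℂ :=
    { toFun := fun D => mev (ι := Fin 2) w ![lam, k] ![s, y] (spec z D)
      map_zero' := by rw [map_zero, mev_zero]
      map_add' := fun p q => by rw [map_add, mev_add] }
  let g : AO O L →+ ℂ :=
    { toFun := fun D => mev (ι := Fin 2)
        ((w.compAddMonoidHom (incl (Ker k))).compAddMonoidHom (prj k S h)) ![lam, k]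
        ![s, y * (w S : ℂ)] (spec z D)
      map_zero' := by rw [map_zero, mev_zero]
      map_add' := fun p q => by rw [map_add, mev_add] }
  refine eq_of_single f g D fun a ha => ?_
  change mev (ι := Fin 2) w ![lam, k] ![s, y] (spec z (AddMonoidAlgebra.single a (D.coeff a))) =
    mev (ι := Fin 2) ((w.compAddMonoidHom (incl (Ker k))).compAddMonoidHom (prj k S h)) ![lam, k]
        ![s, y * (w S : ℂ)] (spec z (AddMonoidAlgebra.single a (D.coeff a)))
  rw [spec_single, mev_single, mev_single, Fin.prod_univ_two, Fin.prod_univ_two]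
  simp only [Matrix.cons_val_zero, Matrix.cons_val_one, AddChar.compAddMonoidHom_apply]
  rw [incl_apply, prj_coe]
  rcases hb a ha with h0 | h1
  · rw [h0, zero_smul, sub_zero, Int.toNat_zero, pow_zero, pow_zero]
  · rw [h1, one_smul, Int.toNat_one, pow_one, pow_one]
    have h2 : (w a : ℂ) = (w (a - S) : ℂ) * (w S : ℂ) := by
      rw [← Circle.coe_mul, ← AddChar.map_add_eq_mul, sub_add_cancel]
    rw [h2]
    ring

/-- The average of functions with real part at least one half. -/
theorem avg_ne {ι : Type} [Fintype ι] [Nonempty ι] (X : ι → ℂ) (V y : ℂ) (hV : V ≠ 0)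
    (h : ∀ i, ‖V - X i‖ ≤ ‖X i‖) (hy : ‖y‖ < 1) : ∑ i, (X i + y * (V - X i)) ≠ 0 := by
  intro h0
  set N : ℝ := (Fintype.card ι : ℝ) with hN
  have hNpos : 0 < N := by
    rw [hN]
    exact_mod_cast Fintype.card_pos
  set W : ι → ℂ := fun i => X i / V with hW
  set S : ℂ := ∑ i, W i with hS
  have hXW : ∀ i, X i = V * W i := fun i => by rw [hW]; field_simp
  have hre : ∀ i, 1 / 2 ≤ (W i).re := by
    intro i
    have h1 := h i
    rw [hXW i, show V - V * W i = V * (1 - W i) by ring, norm_mul, norm_mul] at h1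
    have h2 : ‖1 - W i‖ ≤ ‖W i‖ := le_of_mul_le_mul_left h1 (norm_pos_iff.mpr hV)
    have h3 : ‖1 - W i‖ ^ 2 ≤ ‖W i‖ ^ 2 := pow_le_pow_left₀ (norm_nonneg _) h2 2
    rw [← Complex.normSq_eq_norm_sq, ← Complex.normSq_eq_norm_sq, Complex.normSq_apply,
      Complex.normSq_apply, Complex.sub_re, Complex.sub_im, Complex.one_re, Complex.one_im] at h3
    nlinarith
  have hreS : N / 2 ≤ S.re := by
    rw [hS, Complex.re_sum]
    have h1 : ∑ _i : ι, (1 / 2 : ℝ) ≤ ∑ i, (W i).re := Finset.sum_le_sum fun i _ => hre i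
    rw [Finset.sum_const, Finset.card_univ, nsmul_eq_mul] at h1
    linarith
  have hsum : V * ((1 - y) * S + (N : ℂ) * y) = 0 := by
    rw [← h0, hS]
    have h1 : ∀ i, X i + y * (V - X i) = V * ((1 - y) * W i) + V * y := by
      intro i
      rw [hXW i]
      ring
    rw [Finset.sum_congr rfl fun i _ => h1 i, Finset.sum_add_distrib, Finset.sum_const,
      Finset.card_univ, nsmul_eq_mul, ← Finset.mul_sum, ← Finset.mul_sum, hN]
    push_cast
    ring
  have h1 : (1 - y) * S + (N : ℂ) * y = 0 := (mul_eq_zero.mp hsum).resolve_left hV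
  have h2 : S = y * (S - N) := by linear_combination h1
  have h3 : ‖S - N‖ ≤ ‖S‖ := by
    have h4 : ‖S - N‖ ^ 2 ≤ ‖S‖ ^ 2 := by
      rw [← Complex.normSq_eq_norm_sq, ← Complex.normSq_eq_norm_sq, Complex.normSq_apply,
        Complex.normSq_apply, Complex.sub_re, Complex.sub_im, Complex.ofReal_re, Complex.ofReal_im]
      nlinarith
    exact le_of_sq_le_sq h4 (norm_nonneg _)
  have h4 : ‖S‖ ≤ ‖y‖ * ‖S‖ := by
    calc ‖S‖ = ‖y * (S - N)‖ := by rw [← h2]
      _ = ‖y‖ * ‖S - N‖ := norm_mul _ _
      _ ≤ ‖y‖ * ‖S‖ := mul_le_mul_of_nonneg_left h3 (norm_nonneg _)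
  have h5 : ‖S‖ = 0 := by
    have := norm_nonneg S
    nlinarith
  have h6 : S = 0 := norm_eq_zero.mp h5
  rw [h6, Complex.zero_re] at hreS
  linarith

omit [IsDomain O] [IsPrincipalIdealRing O] in
theorem sl_congr {M : Type} [AddCommGroup M] (u v : AddChar M Circle) (lam : M →+ ℤ) (p : CA M)
    (h : ∀ a ∈ p.coeff.support, u a = v a) : sl u lam p = sl v lam p := by
  unfold sl
  refine Finsupp.sum_congr fun a ha => ?_
  rw [h a ha]

end

section

variable {O : Type} [CommRing O] [IsDomain O] [IsPrincipalIdealRing O] [Coef O] {P : Type}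
  [Fintype P] [DecidableEq P] {L : Type} [AddCommGroup L] [Module.Free ℤ L] [Module.Finite ℤ L]

/-- The Harnack inequality of a closing. -/
theorem harn (h2 : MultiS) (h3 : StSpecS) (h5 : B2cS) (h6 : G0S) (h7 : EvRS)
    {phi : L →+ (P → ℤ)} {D : AO O L} {S : L} {i0 : P} {eta : (RO O)ˣ} {h : co phi i0 S = 1}
    (hcc : CC phi D S i0 eta) (lam : L →+ ℤ) (hS : lam S = 0)
    (hlam : ∀ a ∈ supp D, a ≠ 0 → a ≠ S → 0 < lam a) (z : Circle)
    (hz : evR z (D.coeff 0 + (eta : RO O) * D.coeff S) ≠ 0)
    (u : AddChar (Ker (co phi i0)) Circle) (s : ℂ) (hs : ‖s‖ < 1) :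
    (sl u (lam.comp (incl (Ker (co phi i0)))) (spec z (cl (co phi i0) S h eta D))).eval s ≠ 0 ∧
    ‖(sl u (lam.comp (incl (Ker (co phi i0)))) (spec z (cl (co phi i0) S h eta D))).eval s -
      (sl u (lam.comp (incl (Ker (co phi i0)))) (spec z (res (Ker (co phi i0)) D))).eval s‖ ≤
      ‖(sl u (lam.comp (incl (Ker (co phi i0)))) (spec z (res (Ker (co phi i0)) D))).eval s‖ := by
  obtain ⟨g1, g2, g3, g4, g5, g6⟩ := h6 O P L phi D S i0 eta h hcc
  have hD0 : evR z (D.coeff 0) ≠ 0 := by
    intro h0
    apply hz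
    have := (h5 O L D hcc.dd.st).2 S hcc.ray z
    rw [h0, norm_zero] at this
    have h1 : evR z (D.coeff S) = 0 := norm_le_zero_iff.mp this
    rw [map_add, map_mul, h0, h1, mul_zero, add_zero]
  have hst : StableC (spec z D) := (h3 O L D).1 hcc.dd.st z hD0
  have hPV : Pos (lam.comp (incl (Ker (co phi i0)))) (cl (co phi i0) S h eta D) := g6 lam hS hlam
  have hbin : ∀ a ∈ supp D, co phi i0 a = 0 ∨ co phi i0 a = 1 := fun a ha => hcc.dd.bin a ha i0
  have hsup : ∀ a ∈ (spec z D).coeff.support, a ∈ supp D := by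
    intro a ha h0
    rw [Finsupp.mem_support_iff, spec_coeff, h0, map_zero] at ha
    exact ha rfl
  have hn : ‖evR z (eta : RO O)‖ = 1 := (h7 O).2.1 z _ eta.isUnit
  set X := (sl u (lam.comp (incl (Ker (co phi i0)))) (spec z (res (Ker (co phi i0)) D))).eval s
    with hX
  set V := (sl u (lam.comp (incl (Ker (co phi i0)))) (spec z (cl (co phi i0) S h eta D))).eval s
    with hV
  set e := evR z (eta : RO O) with he
  have he0 : e ≠ 0 := by
    intro h0
    rw [h0, norm_zero] at hn
    exact zero_ne_one hn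
  have hne : ∀ y : ℂ, ‖y‖ < 1 → X + y * (e⁻¹ * (V - X)) ≠ 0 := by
    intro y hy
    have := h2 L (spec z D) hst (Fin 2) ![lam, co phi i0] (by
        intro i a ha
        have ha' := hsup a ha
        fin_cases i
        · rcases eq_or_ne a 0 with rfl | h0
          · simp
          · rcases eq_or_ne a S with rfl | h1
            · simpa using hS.ge
            · simpa using (hlam a ha' h0 h1).le
        · rcases hbin a ha' with h | h <;> simp [h])
      (by
        intro a ha h0
        have ha' := hsup a ha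
        rw [Fin.sum_univ_two]
        have hk0 : 0 ≤ co phi i0 a := by rcases hbin a ha' with h | h <;> simp [h]
        rcases eq_or_ne a S with rfl | h1
        · simp [hS, h]
        · have := hlam a ha' h0 h1
          simp only [Matrix.cons_val_zero, Matrix.cons_val_one]
          omega)
      (u.compAddMonoidHom (prj (co phi i0) S h)) ![s, y] (by
        intro i
        fin_cases i
        · simpa using hs
        · simpa using hy)
    rw [two_slice (co phi i0) S h eta lam hS z u D hbin s y] at this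
    exact this
  have hVne : V ≠ 0 := (h3 O (Ker (co phi i0)) (cl (co phi i0) S h eta D)).2.2 g1 _ hPV z (by rw [g3]; exact hz) u s hs
  refine ⟨hVne, ?_⟩
  by_contra hcon
  push Not at hcon
  have hY0 : V - X ≠ 0 := by
    intro h0
    rw [h0, norm_zero] at hcon
    exact absurd hcon (not_lt.mpr (norm_nonneg _))
  apply hne (-(e * X) / (V - X))
  · rw [norm_div, norm_neg, norm_mul, hn, one_mul, div_lt_one (norm_pos_iff.mpr hY0)]
    exact hcon
  · field_simp
    ring

/-- (AM_RES) -/
theorem resK (hU : UnitAS) (hVc : VcoS) (hRk : RkS) (h2 : MultiS) (h3 : StSpecS) (h5 : B2cS)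
    (h6 : G0S) (h7 : EvRS) (hA : A3bS) (hZ : ZfinS) : ResKS := by
  classical
  intro O _ _ _ _ P L _ _ _ _ _ phi D S eta K hD htwo hS hv0 hLK hfin
  obtain ⟨t, u0, hrev, hport, htL⟩ := top hU hVc hRk O P L phi D hD htwo
  have htK : t ∈ K := hLK (htL S eta hS hv0)
  have hSK : S ∈ K := hLK (Submodule.subset_span (Or.inl rfl))
  have hSb : Bin phi S := hD.bin S hS.1
  have hc0 : (res K D).coeff 0 = D.coeff 0 := res_coeff K D 0
  have hD0 : D.coeff 0 ≠ 0 := hD.st.1
  refine ⟨?_, ?_⟩
  swap
  · refine unitary_of_reversal hU (res K D) ⟨t, htK⟩ u0 fun a => ?_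
    exact hrev (a : L)
  -- the port
  obtain ⟨i0, hi0⟩ : ∃ i0, phi S i0 = 1 := by
    by_contra hcon
    push Not at hcon
    apply hS.2.1
    apply hD.inj
    rw [map_zero]
    funext i
    exact (hSb i).resolve_right (hcon i)
  have h : co phi i0 S = 1 := hi0
  have hcc : CC phi D S i0 eta := ⟨hD, htwo, hS, h, hv0⟩
  obtain ⟨lam, hlS, hlam⟩ := hS.2.2
  have hlam' : ∀ a ∈ supp D, a ≠ 0 → a ≠ S → 0 < lam a := hlam
  set k := co phi i0 with hk
  have hbin : ∀ a ∈ supp D, k a = 0 ∨ k a = 1 := fun a ha => hD.bin a ha i0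
  have hkn : ∀ a ∈ supp D, 0 ≤ k a := fun a ha => by rcases hbin a ha with h | h <;> omega
  have hln : ∀ a ∈ supp D, 0 ≤ lam a := by
    intro a ha
    rcases eq_or_ne a 0 with rfl | h0
    · rw [map_zero]
    · rcases eq_or_ne a S with rfl | h1
      · rw [hlS]
      · exact (hlam a ha h0 h1).le
  -- the functional
  have hpos : Pos ((lam + k).comp (incl K)) (res K D) := by
    intro a ha ha0
    have ha' : (a : L) ∈ supp D := by
      rw [Finsupp.mem_support_iff, res_coeff] at ha
      exact ha
    change 0 < lam (a : L) + k (a : L)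
    have hk1 := hkn _ ha'
    rcases eq_or_ne (a : L) S with h1 | h1
    · rw [h1, hlS, h]
      norm_num
    · have := hlam _ ha' (fun h0 => ha0 (Subtype.ext h0)) h1
      omega
  refine ⟨by rw [hc0]; exact hD0, (lam + k).comp (incl K), hpos, ?_⟩
  -- finite index
  have hfinite : Finite (L ⧸ K) := by
    apply Module.finite_of_fg_torsion
    intro x
    induction x using Submodule.Quotient.induction_on with
    | H a =>
      obtain ⟨n, hn, hna⟩ := hfin a
      refine ⟨⟨n, mem_nonZeroDivisors_of_ne_zero hn⟩, ?_⟩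
      change n • (Submodule.Quotient.mk a : L ⧸ K) = 0
      rw [← Submodule.Quotient.mk_smul, Submodule.Quotient.mk_eq_zero]
      exact hna
  haveI : Fintype (L ⧸ K) := Fintype.ofFinite _
  haveI : Finite (AddChar (L ⧸ K) Circle) :=
    Finite.of_equiv _ (AddChar.circleEquivComplex (α := L ⧸ K)).symm.toEquiv
  haveI : Fintype (AddChar (L ⧸ K) Circle) := Fintype.ofFinite _
  have hcard : (Fintype.card (L ⧸ K) : ℂ) ≠ 0 := by
    exact_mod_cast Fintype.card_ne_zero
  -- the closed element has its exponents in `K`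
  obtain ⟨-, -, -, -, hcl⟩ := hVc O P L phi D S eta hD.inj hD.bin hSb hS.2.1
  have hclK : ∀ b : Ker k, (cl k S h eta D).coeff b ≠ 0 → (b : L) ∈ K := by
    intro b hb
    rw [hcl i0 h b] at hb
    exact hLK (Submodule.subset_span (Or.inr hb))
  have hmain : ∀ z : Circle, evR z (D.coeff 0 + (eta : RO O) * D.coeff S) ≠ 0 →
      ∀ (v : AddChar K Circle) (s : ℂ), ‖s‖ < 1 →
        (sl v ((lam + k).comp (incl K)) (spec z (res K D))).eval s ≠ 0 := by
    intro z hz v s hs h0
    obtain ⟨u, hu⟩ := Pool.Agent.B5.H59.ext_char L K v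
    have h10 := average K lam k z u v hu D (fun a ha => ⟨hln a ha, hkn a ha⟩) s
    rw [h0, mul_zero] at h10
    set w : AddChar (L ⧸ K) Circle → AddChar L Circle := fun x =>
      u * x.compAddMonoidHom (K.mkQ.toAddMonoidHom) with hw
    have hwK : ∀ x, ∀ a ∈ K, w x a = u a := by
      intro x a ha
      rw [hw]
      change u a * x (K.mkQ a) = u a
      have h11 : K.mkQ a = 0 := by
        rw [Submodule.mkQ_apply, Submodule.Quotient.mk_eq_zero]
        exact ha
      rw [h11, AddChar.map_zero_eq_one, mul_one]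
    set e := evR z (eta : RO O) with he
    have hn : ‖e‖ = 1 := (h7 O).2.1 z _ eta.isUnit
    set V := (sl (u.compAddMonoidHom (incl (Ker k))) (lam.comp (incl (Ker k)))
      (spec z (cl k S h eta D))).eval s with hV
    set X : AddChar (L ⧸ K) Circle → ℂ := fun x =>
      (sl ((w x).compAddMonoidHom (incl (Ker k))) (lam.comp (incl (Ker k)))
        (spec z (res (Ker k) D))).eval s with hX
    have hVx : ∀ x, (sl ((w x).compAddMonoidHom (incl (Ker k))) (lam.comp (incl (Ker k)))
        (spec z (cl k S h eta D))).eval s = V := by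
      intro x
      rw [hV]
      congr 1
      apply sl_congr
      intro b hb
      have hb' : (cl k S h eta D).coeff b ≠ 0 := by
        intro h12
        rw [Finsupp.mem_support_iff, spec_coeff, h12, map_zero] at hb
        exact hb rfl
      exact hwK x _ (hclK b hb')
    have hterm : ∀ x, mev (ι := Fin 2) (w x) ![lam, k] ![s, s] (spec z D) =
        X x + (s * (u S : ℂ) * e⁻¹) * (V - X x) := by
      intro x
      rw [shift k S h lam z (w x) D hbin s s, two_slice k S h eta lam hlS z _ D hbin s _, hVx x,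
        hwK x S hSK]
      ring
    rw [Finset.sum_congr rfl fun x _ => hterm x] at h10
    haveI : Nonempty (AddChar (L ⧸ K) Circle) := ⟨1⟩
    have hh := fun x => harn (h := h) h2 h3 h5 h6 h7 hcc lam hlS hlam' z hz
      ((w x).compAddMonoidHom (incl (Ker k))) s hs
    refine avg_ne X V (s * (u S : ℂ) * e⁻¹) ?_ (fun x => ?_) ?_ h10.symm
    · have := (hh 1).1
      rwa [hVx] at this
    · have := (hh x).2
      rwa [hVx] at this
    · rw [norm_mul, norm_mul, norm_inv, hn, Circle.norm_coe, inv_one, mul_one, mul_one]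
      exact hs
  -- all points of the circle
  intro z hz0 v s hs
  set m : ℕ := (res K D).coeff.support.sup fun a => (((lam + k).comp (incl K)) a).toNat with hm
  have hdeg : ∀ z : Circle, (sl v ((lam + k).comp (incl K)) (spec z (res K D))).natDegree ≤ m := by
    intro z
    unfold sl Finsupp.sum
    refine Polynomial.natDegree_sum_le_of_forall_le _ _ fun a ha => ?_
    refine (Polynomial.natDegree_monomial_le _).trans ?_
    have ha' : a ∈ (res K D).coeff.support := by
      rw [Finsupp.mem_support_iff] at ha ⊢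
      intro h12
      rw [spec_coeff, h12, map_zero] at ha
      exact ha rfl
    exact Finset.le_sup (f := fun a => (((lam + k).comp (incl K)) a).toNat) ha'
  have hcont : Continuous fun z : Circle =>
      (sl v ((lam + k).comp (incl K)) (spec z (res K D))).eval s := by
    have h13 : ∀ z : Circle, (sl v ((lam + k).comp (incl K)) (spec z (res K D))).eval s =
        ∑ a ∈ (res K D).coeff.support, evR z ((res K D).coeff a) * (v a : ℂ) *
          s ^ (((lam + k).comp (incl K)) a).toNat := by
      intro z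
      unfold sl Finsupp.sum
      rw [Polynomial.eval_finset_sum]
      have hsub : (spec z (res K D)).coeff.support ⊆ (res K D).coeff.support := by
        intro a ha
        rw [Finsupp.mem_support_iff] at ha ⊢
        intro h12
        rw [spec_coeff, h12, map_zero] at ha
        exact ha rfl
      rw [Finset.sum_subset hsub]
      · refine Finset.sum_congr rfl fun a _ => ?_
        rw [Polynomial.eval_monomial, spec_coeff]
      · intro a _ ha
        rw [Finsupp.notMem_support_iff] at ha
        rw [ha]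
        simp
    simp_rw [h13]
    refine continuous_finset_sum _ fun a _ => ?_
    exact (((h7 O).2.2.2 _).mul continuous_const).mul continuous_const
  have hcl : IsClosed {z : Circle | ‖evR z (D.coeff 0)‖ * (1 - ‖s‖) ^ m ≤
      ‖(sl v ((lam + k).comp (incl K)) (spec z (res K D))).eval s‖} :=
    isClosed_le ((((h7 O).2.2.2 _).norm).mul continuous_const) hcont.norm
  have hall := H09.tpm_dense hZ (D.coeff 0 + (eta : RO O) * D.coeff S) hv0 _ hcl (by
    intro z hz
    have h14 := hA (sl v ((lam + k).comp (incl K)) (spec z (res K D))) m (hdeg z)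
      (fun s hs => hmain z hz v s hs) s hs.le
    rwa [sl_coeff_zero (pos_spec hpos z), spec_coeff, hc0] at h14) z
  intro h15
  have h16 : ‖evR z (D.coeff 0)‖ * (1 - ‖s‖) ^ m ≤ 0 := by
    have h17 := hall
    rw [h15, norm_zero] at h17
    exact h17
  have h18 : 0 < ‖evR z (D.coeff 0)‖ * (1 - ‖s‖) ^ m :=
    mul_pos (norm_pos_iff.mpr (by rwa [hc0] at hz0)) (pow_pos (by linarith) _)
  linarith

end

end Pool.Agent.B5.H07
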