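import Pool.Agent.Lib.MP_b5021c_nt.E.H07.Res

/-!
# Board b5: multiple closings in one step

`Z i` (`i : ι`) elements of `L` (disjoint rays) with ports `p i`, `phi (Z j) (p i) = δ_ij`,
`s i` units.  `mcl` is the ring homomorphism `w^a ↦ ∏ s_i^(phi a p_i) w^(a - ∑ phi a p_i Z_i)`.
-/

set_option linter.unusedSectionVars false

namespace Pool.Agent.B5

open scoped LaurentPolynomial

section

variable {ι : Type} [Fintype ι] [DecidableEq ι] {P : Type} {L : Type} [AddCommGroup L]

/-- Ports for the elements `Z i`. -/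
structure Mp (phi : L →+ (P → ℤ)) (Z : ι → L) where
  p : ι → P
  hp : ∀ i j, phi (Z j) (p i) = if i = j then 1 else 0

/-- The common kernel of the ports. -/
def KK {phi : L →+ (P → ℤ)} {Z : ι → L} (X : Mp phi Z) : Submodule ℤ L where
  carrier := {a | ∀ i, phi a (X.p i) = 0}
  zero_mem' := fun i => by rw [map_zero]; rfl
  add_mem' := by
    intro a b ha hb i
    rw [map_add, Pi.add_apply, ha i, hb i, add_zero]
  smul_mem' := by
    intro c a ha i
    have h1 : phi (c • a) (X.p i) = c * phi a (X.p i) := by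
      rw [map_zsmul, Pi.smul_apply, smul_eq_mul]
    rw [h1, ha i, mul_zero]

theorem mem_KK {phi : L →+ (P → ℤ)} {Z : ι → L} {X : Mp phi Z} {a : L} :
    a ∈ KK X ↔ ∀ i, phi a (X.p i) = 0 := Iff.rfl

/-- The projection `a ↦ a - ∑ phi a p_i Z_i`. -/
def mpr {phi : L →+ (P → ℤ)} {Z : ι → L} (X : Mp phi Z) : L →+ KK X where
  toFun a := ⟨a - ∑ i, phi a (X.p i) • Z i, by
    intro j
    have h1 : phi (∑ i, phi a (X.p i) • Z i) (X.p j) = phi a (X.p j) := by
      rw [map_sum, Finset.sum_apply, Finset.sum_eq_single j]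
      · rw [map_zsmul, Pi.smul_apply, smul_eq_mul, X.hp j j, if_pos rfl, mul_one]
      · intro i _ hij
        rw [map_zsmul, Pi.smul_apply, smul_eq_mul, X.hp j i, if_neg (Ne.symm hij), mul_zero]
      · intro h
        exact absurd (Finset.mem_univ j) h
    rw [map_sub, Pi.sub_apply, h1, sub_self]⟩
  map_zero' := by
    apply Subtype.ext
    change (0 : L) - ∑ i, phi 0 (X.p i) • Z i = 0
    rw [map_zero]
    simp
  map_add' a b := by
    apply Subtype.ext
    change a + b - ∑ i, phi (a + b) (X.p i) • Z i =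
      (a - ∑ i, phi a (X.p i) • Z i) + (b - ∑ i, phi b (X.p i) • Z i)
    rw [map_add]
    simp only [Pi.add_apply, add_smul, Finset.sum_add_distrib]
    abel

theorem mpr_coe {phi : L →+ (P → ℤ)} {Z : ι → L} (X : Mp phi Z) (a : L) :
    ((mpr X a : KK X) : L) = a - ∑ i, phi a (X.p i) • Z i := rfl

theorem mpr_self {phi : L →+ (P → ℤ)} {Z : ι → L} (X : Mp phi Z) (a : KK X) :
    mpr X (a : L) = a := by
  apply Subtype.ext
  rw [mpr_coe, Finset.sum_eq_zero, sub_zero]
  intro i _
  rw [a.2 i, zero_smul]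

theorem mpr_Z {phi : L →+ (P → ℤ)} {Z : ι → L} (X : Mp phi Z) (j : ι) : mpr X (Z j) = 0 := by
  apply Subtype.ext
  rw [mpr_coe, Finset.sum_eq_single j]
  · rw [X.hp j j, if_pos rfl, one_smul, sub_self]
    rfl
  · intro i _ hij
    rw [X.hp i j, if_neg hij, zero_smul]
  · intro h
    exact absurd (Finset.mem_univ j) h

/-- The unit of an exponent. -/
noncomputable def mun {O : Type} [CommRing O] {phi : L →+ (P → ℤ)} {Z : ι → L} (X : Mp phi Z)
    (s : ι → (RO O)ˣ) (a : L) : (RO O)ˣ := ∏ i, s i ^ (phi a (X.p i))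

theorem mun_add {O : Type} [CommRing O] {phi : L →+ (P → ℤ)} {Z : ι → L} (X : Mp phi Z)
    (s : ι → (RO O)ˣ) (a b : L) : mun X s (a + b) = mun X s a * mun X s b := by
  unfold mun
  rw [map_add, ← Finset.prod_mul_distrib]
  exact Finset.prod_congr rfl fun i _ => by rw [Pi.add_apply, zpow_add]

theorem mun_zero {O : Type} [CommRing O] {phi : L →+ (P → ℤ)} {Z : ι → L} (X : Mp phi Z)
    (s : ι → (RO O)ˣ) : mun X s 0 = 1 := by
  unfold mun
  rw [map_zero]
  exact Finset.prod_eq_one fun i _ => by rw [Pi.zero_apply, zpow_zero]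

/-- THE MULTIPLE CLOSING `w^(Z i) = s i`. -/
noncomputable def mcl {O : Type} [CommRing O] {phi : L →+ (P → ℤ)} {Z : ι → L} (X : Mp phi Z)
    (s : ι → (RO O)ˣ) : AO O L →+* AO O (KK X) :=
  AddMonoidAlgebra.liftNCRingHom
    (AddMonoidAlgebra.singleZeroRingHom (R := RO O) (M := KK X))
    { toFun := fun a => AddMonoidAlgebra.single (mpr X a.toAdd) ((mun X s a.toAdd : (RO O)ˣ) : RO O)
      map_one' := by
        rw [toAdd_one, map_zero (mpr X), mun_zero, Units.val_one]
        rfl
      map_mul' := fun a b => by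
        rw [AddMonoidAlgebra.single_mul_single, toAdd_mul, map_add (mpr X), mun_add,
          Units.val_mul] }
    (fun _ _ => Commute.all _ _)

theorem mcl_single {O : Type} [CommRing O] {phi : L →+ (P → ℤ)} {Z : ι → L} (X : Mp phi Z)
    (s : ι → (RO O)ˣ) (a : L) (q : RO O) :
    mcl X s (AddMonoidAlgebra.single a q) =
      AddMonoidAlgebra.single (mpr X a) (q * ((mun X s a : (RO O)ˣ) : RO O)) := by
  simp [mcl, AddMonoidAlgebra.single_mul_single]

end

namespace H07

open Pool.Agent.B5.H83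

section

variable {ι : Type} [Fintype ι] [DecidableEq ι] {O : Type} [CommRing O] [Coef O] {P : Type}
  {L : Type} [AddCommGroup L]

/-- (M1) the coefficients of a multiple closing, multi-affine case. -/
theorem mcl_coeff {phi : L →+ (P → ℤ)} {Z : ι → L} (X : Mp phi Z) (s : ι → (RO O)ˣ) (D : AO O L)
    (hb : ∀ a ∈ supp D, ∀ i, phi a (X.p i) = 0 ∨ phi a (X.p i) = 1) (b : KK X) :
    (mcl X s D).coeff b =
      ∑ T : Finset ι, D.coeff ((b : L) + ∑ i ∈ T, Z i) * ∏ i ∈ T, ((s i : (RO O)ˣ) : RO O) := by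
  classical
  let f : AO O L →+ RO O :=
    { toFun := fun D => (mcl X s D).coeff b
      map_zero' := by rw [map_zero]; rfl
      map_add' := fun p q => by
        rw [map_add, AddMonoidAlgebra.coeff_add, Finsupp.add_apply] }
  let g : AO O L →+ RO O :=
    { toFun := fun D => ∑ T : Finset ι, D.coeff ((b : L) + ∑ i ∈ T, Z i) *
        ∏ i ∈ T, ((s i : (RO O)ˣ) : RO O)
      map_zero' := by simp
      map_add' := fun p q => by
        rw [← Finset.sum_add_distrib]
        refine Finset.sum_congr rfl fun T _ => ?_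
        rw [AddMonoidAlgebra.coeff_add, Finsupp.add_apply, add_mul] }
  refine eq_of_single f g D fun a ha => ?_
  change (mcl X s (AddMonoidAlgebra.single a (D.coeff a))).coeff b = ∑ T : Finset ι,
    (AddMonoidAlgebra.single a (D.coeff a) : AO O L).coeff ((b : L) + ∑ i ∈ T, Z i) *
        ∏ i ∈ T, ((s i : (RO O)ˣ) : RO O)
  have hZ : ∀ (T : Finset ι) (j : ι), phi (∑ i ∈ T, Z i) (X.p j) = if j ∈ T then 1 else 0 := by
    intro T j
    rw [map_sum, Finset.sum_apply]
    rw [Finset.sum_congr rfl fun i _ => X.hp j i, Finset.sum_ite_eq]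
  set T0 : Finset ι := Finset.univ.filter fun i => phi a (X.p i) = 1 with hT0
  have hsum : ∑ i, phi a (X.p i) • Z i = ∑ i ∈ T0, Z i := by
    rw [hT0, Finset.sum_filter]
    refine Finset.sum_congr rfl fun i _ => ?_
    rcases hb a ha i with h | h
    · rw [h, zero_smul, if_neg (by norm_num)]
    · rw [h, one_smul, if_pos rfl]
  have hun : ((mun X s a : (RO O)ˣ) : RO O) = ∏ i ∈ T0, ((s i : (RO O)ˣ) : RO O) := by
    unfold mun
    rw [Units.coe_prod, hT0, Finset.prod_filter]
    refine Finset.prod_congr rfl fun i _ => ?_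
    rcases hb a ha i with h | h
    · rw [h, zpow_zero, if_neg (by norm_num), Units.val_one]
    · rw [h, zpow_one, if_pos rfl]
  rw [mcl_single, AddMonoidAlgebra.coeff_single, Finsupp.single_apply, hun]
  by_cases hab : mpr X a = b
  · rw [if_pos hab, Finset.sum_eq_single T0]
    · have h1 : (b : L) + ∑ i ∈ T0, Z i = a := by
        rw [← hab, mpr_coe, hsum, sub_add_cancel]
      rw [h1, AddMonoidAlgebra.coeff_single, Finsupp.single_eq_same]
    · intro T _ hT
      rw [AddMonoidAlgebra.coeff_single, Finsupp.single_apply, if_neg, zero_mul]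
      intro h2
      apply hT
      ext j
      have h3 : phi a (X.p j) = if j ∈ T then 1 else 0 := by
        rw [h2, map_add, Pi.add_apply, b.2 j, zero_add, hZ]
      rw [hT0, Finset.mem_filter]
      by_cases hj : j ∈ T
      · rw [if_pos hj] at h3
        simp [hj, h3]
      · rw [if_neg hj] at h3
        simp [hj, h3]
    · intro h
      exact absurd (Finset.mem_univ T0) h
  · rw [if_neg hab, Finset.sum_eq_zero]
    intro T _
    rw [AddMonoidAlgebra.coeff_single, Finsupp.single_apply, if_neg, zero_mul]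
    intro h2
    apply hab
    have h4 : mpr X (∑ i ∈ T, Z i) = 0 := by
      rw [map_sum]
      exact Finset.sum_eq_zero fun i _ => mpr_Z X i
    rw [h2, map_add, h4, add_zero, mpr_self]

/-- The exponents of a multiple closing. -/
theorem mcl_supp {phi : L →+ (P → ℤ)} {Z : ι → L} (X : Mp phi Z) (s : ι → (RO O)ˣ) (D : AO O L)
    (b : KK X) (hb : (mcl X s D).coeff b ≠ 0) : ∃ a ∈ supp D, mpr X a = b := by
  classical
  by_contra hcon
  push Not at hcon
  apply hb
  let f : AO O L →+ RO O :=
    { toFun := fun D => (mcl X s D).coeff b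
      map_zero' := by rw [map_zero]; rfl
      map_add' := fun p q => by
        rw [map_add, AddMonoidAlgebra.coeff_add, Finsupp.add_apply] }
  refine eq_of_single f 0 D fun a ha => ?_
  change (mcl X s (AddMonoidAlgebra.single a (D.coeff a))).coeff b = 0
  rw [mcl_single, AddMonoidAlgebra.coeff_single, Finsupp.single_apply, if_neg (hcon a ha)]

end

section

variable {ι : Type} [Fintype ι] [DecidableEq ι] {O : Type} [CommRing O] [IsDomain O]
  [IsPrincipalIdealRing O] [Coef O] {P : Type} {L : Type} [AddCommGroup L]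

/-- Closing commutes with `#`. -/
theorem sharp_mcl {phi : L →+ (P → ℤ)} {Z : ι → L} (X : Mp phi Z) (s : ι → (RO O)ˣ) (D : AO O L) :
    sharp (mcl X s D) = mcl X s (sharp D) := by
  let f : AO O L →+ AO O (KK X) := (sharp.comp (mcl X s)).toAddMonoidHom
  let g : AO O L →+ AO O (KK X) := ((mcl X s).comp sharp).toAddMonoidHom
  refine eq_of_single f g D fun a _ => ?_
  change sharp (mcl X s (AddMonoidAlgebra.single a (D.coeff a))) =
    mcl X s (sharp (AddMonoidAlgebra.single a (D.coeff a)))
  rw [mcl_single, Pool.Agent.B5.H24.sharp_single, Pool.Agent.B5.H24.sharp_single, mcl_single,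
    map_neg, map_mul]
  congr 2
  have h1 : mun X s (-a) = (mun X s a)⁻¹ := by
    rw [eq_inv_iff_mul_eq_one, ← mun_add, neg_add_cancel, mun_zero]
  have h2 := Pool.Agent.B5.H24.rsh_zpow (mun X s a) 1
  rw [zpow_one, zpow_neg, zpow_one] at h2
  rw [h2, h1]

/-- (M3) multiple closings of unitary elements are unitary. -/
theorem mcl_unitary {phi : L →+ (P → ℤ)} {Z : ι → L} (X : Mp phi Z) (s : ι → (RO O)ˣ)
    (D : AO O L) (h : Unitary D) : Unitary (mcl X s D) := by
  unfold Unitary at h ⊢
  rw [sharp_mcl]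
  exact h.map (mcl X s)

/-- The slices of a multiple closing and the multi-parameter slices of `D`. -/
theorem mcl_slice {phi : L →+ (P → ℤ)} {Z : ι → L} (X : Mp phi Z) (s : ι → (RO O)ˣ)
    (lam : L →+ ℤ) (hZ : ∀ i, lam (Z i) = 0) (z : Circle) (u : AddChar (KK X) Circle)
    (D : AO O L) (hk : ∀ a ∈ supp D, ∀ i, 0 ≤ phi a (X.p i)) (x : ℂ) :
    mev (ι := Option ι) (u.compAddMonoidHom (mpr X))
        (fun o => o.elim lam fun i => (Pi.evalAddMonoidHom (fun _ : P => ℤ) (X.p i)).comp phi)
        (fun o => o.elim x fun i => evR z ((s i : (RO O)ˣ) : RO O)) (spec z D) =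
      (sl u (lam.comp (incl (KK X))) (spec z (mcl X s D))).eval x := by
  let f : AO O L →+ ℂ :=
    { toFun := fun D => mev (ι := Option ι) (u.compAddMonoidHom (mpr X))
        (fun o => o.elim lam fun i => (Pi.evalAddMonoidHom (fun _ : P => ℤ) (X.p i)).comp phi)
        (fun o => o.elim x fun i => evR z ((s i : (RO O)ˣ) : RO O)) (spec z D)
      map_zero' := by rw [map_zero, mev_zero]
      map_add' := fun p q => by rw [map_add, mev_add] }
  let g : AO O L →+ ℂ :=
    { toFun := fun D => (sl u (lam.comp (incl (KK X))) (spec z (mcl X s D))).eval x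
      map_zero' := by rw [map_zero, map_zero, sl_zero, Polynomial.eval_zero]
      map_add' := fun p q => by rw [map_add, map_add, sl_add, Polynomial.eval_add] }
  refine eq_of_single f g D fun a ha => ?_
  change mev (ι := Option ι) (u.compAddMonoidHom (mpr X))
        (fun o => o.elim lam fun i => (Pi.evalAddMonoidHom (fun _ : P => ℤ) (X.p i)).comp phi)
        (fun o => o.elim x fun i => evR z ((s i : (RO O)ˣ) : RO O))
        (spec z (AddMonoidAlgebra.single a (D.coeff a))) =
      (sl u (lam.comp (incl (KK X))) (spec z (mcl X s (AddMonoidAlgebra.single a (D.coeff a))))).eval x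
  rw [mcl_single, spec_single, spec_single, mev_single, sl_single, Polynomial.eval_monomial,
    Fintype.prod_option]
  have hlam : (lam.comp (incl (KK X))) (mpr X a) = lam a := by
    rw [AddMonoidHom.comp_apply, incl_apply, mpr_coe, map_sub, map_sum,
      Finset.sum_eq_zero (fun i _ => by rw [map_zsmul, hZ i, smul_zero]), sub_zero]
  have hun : evR z ((mun X s a : (RO O)ˣ) : RO O) =
      ∏ i, evR z ((s i : (RO O)ˣ) : RO O) ^ (phi a (X.p i)).toNat := by
    unfold mun
    rw [Units.coe_prod, map_prod]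
    refine Finset.prod_congr rfl fun i _ => ?_
    obtain ⟨n, hn⟩ := Int.eq_ofNat_of_zero_le (hk a ha i)
    rw [hn, zpow_natCast, Units.val_pow_eq_pow_val, map_pow, Int.toNat_natCast]
  rw [hlam, map_mul, hun]
  change evR z (D.coeff a) * ((u (mpr X a) : Circle) : ℂ) * (x ^ (lam a).toNat *
    ∏ i, evR z ((s i : (RO O)ˣ) : RO O) ^ (phi a (X.p i)).toNat) = _
  ring

variable [Module.Free ℤ L] [Module.Finite ℤ L]

/-- (M2) MULTIPLE CLOSINGS OF STABLE ELEMENTS ARE STABLE: `lam` exposes the face of the `Z i`. -/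
theorem mcl_stable (hM : MultiS) (hS : StSpecS) (hB : B2cS) (hE : EvRS) (hA : A3bS)
    {phi : L →+ (P → ℤ)} {Z : ι → L} (X : Mp phi Z) (s : ι → (RO O)ˣ) (D : AO O L)
    (hD : Stable D) (hk : ∀ a ∈ supp D, ∀ i, 0 ≤ phi a (X.p i)) (lam : L →+ ℤ)
    (hZ : ∀ i, lam (Z i) = 0) (hlam : ∀ a ∈ supp D, mpr X a ≠ 0 → 0 < lam a)
    (h0 : (mcl X s D).coeff 0 ≠ 0) :
    Stable (mcl X s D) ∧ Pos (lam.comp (incl (KK X))) (mcl X s D) := by
  classical
  have hlamz : ∀ a, mpr X a = 0 → lam a = 0 := by
    intro a ha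
    have h1 := congrArg (fun b : KK X => lam (b : L)) ha
    simp only [mpr_coe, map_sub, map_sum, map_zsmul, hZ, smul_zero, Finset.sum_const_zero,
      sub_zero, ZeroMemClass.coe_zero, map_zero] at h1
    exact h1
  have hlamm : ∀ a : L, (lam.comp (incl (KK X))) (mpr X a) = lam a := by
    intro a
    rw [AddMonoidHom.comp_apply, incl_apply, mpr_coe, map_sub, map_sum,
      Finset.sum_eq_zero (fun i _ => by rw [map_zsmul, hZ i, smul_zero]), sub_zero]
  have hpos : Pos (lam.comp (incl (KK X))) (mcl X s D) := by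
    intro b hb hb0
    obtain ⟨a, ha, hab⟩ := mcl_supp X s D b (Finsupp.mem_support_iff.mp hb)
    rw [← hab, hlamm]
    exact hlam a ha (by rw [hab]; exact hb0)
  refine ⟨⟨h0, lam.comp (incl (KK X)), hpos, ?_⟩, hpos⟩
  intro z hz u x hx
  -- `D_0(z) ≠ 0`
  have hD0 : evR z (D.coeff 0) ≠ 0 := by
    intro hD0
    apply hz
    have hall : ∀ a : L, evR z (D.coeff a) = 0 := by
      intro a
      obtain ⟨C, hC⟩ := (hB O L D hD).1 a
      have h1 := hC z
      rw [hD0, norm_zero, mul_zero] at h1
      exact norm_le_zero_iff.mp h1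
    have h2 : spec z D = 0 := by
      apply AddMonoidAlgebra.ext
      apply Finsupp.ext
      intro a
      rw [spec_coeff, hall a]
      rfl
    have h3 := mcl_slice X s lam hZ z (1 : AddChar (KK X) Circle) D hk 0
    rw [h2, mev_zero, ← Polynomial.coeff_zero_eq_eval_zero, sl_coeff_zero (pos_spec hpos z),
      spec_coeff] at h3
    exact h3.symm
  have hst : StableC (spec z D) := (hS O L D).1 hD z hD0
  have hsup : ∀ a ∈ (spec z D).coeff.support, a ∈ supp D := by
    intro a ha h1
    rw [Finsupp.mem_support_iff, spec_coeff, h1, map_zero] at ha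
    exact ha rfl
  have hlamn : ∀ a ∈ supp D, 0 ≤ lam a := by
    intro a ha
    by_cases h1 : mpr X a = 0
    · rw [hlamz a h1]
    · exact (hlam a ha h1).le
  set mu : Option ι → L →+ ℤ :=
    fun o => o.elim lam fun i => (Pi.evalAddMonoidHom (fun _ : P => ℤ) (X.p i)).comp phi with hmu
  have hmu0 : mu none = lam := rfl
  have hmui : ∀ i a, mu (some i) a = phi a (X.p i) := fun i a => rfl
  have hnn : ∀ o, Nn (mu o) (spec z D) := by
    intro o a ha
    rcases o with _ | i
    · exact hlamn a (hsup a ha)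
    · rw [hmui]
      exact hk a (hsup a ha) i
  have hsum : ∀ a ∈ (spec z D).coeff.support, a ≠ 0 → 0 < ∑ o, mu o a := by
    intro a ha ha0
    have ha' := hsup a ha
    rw [Fintype.sum_option]
    have h1 : 0 ≤ ∑ i, mu (some i) a := Finset.sum_nonneg fun i _ => by
      rw [hmui]
      exact hk a ha' i
    by_cases h2 : mpr X a = 0
    · have h3 : a = ∑ i, phi a (X.p i) • Z i := by
        have h4 := congrArg (fun b : KK X => (b : L)) h2
        rw [mpr_coe] at h4
        exact sub_eq_zero.mp h4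
      have h5 : ∑ i, mu (some i) a ≠ 0 := by
        intro h6
        apply ha0
        rw [h3]
        refine Finset.sum_eq_zero fun i _ => ?_
        have h7 := (Finset.sum_eq_zero_iff_of_nonneg (fun i _ => by
          rw [hmui]; exact hk a ha' i)).mp h6 i (Finset.mem_univ i)
        rw [hmui] at h7
        rw [h7, zero_smul]
      have h6 : mu none a = 0 := hlamz a h2
      rw [h6, zero_add]
      exact lt_of_le_of_ne h1 (Ne.symm h5)
    · have h3 : 0 < mu none a := hlam a ha' h2
      linarith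
  have hv : ∀ i, ‖evR z ((s i : (RO O)ˣ) : RO O)‖ = 1 := fun i => (hE O).2.1 z _ (s i).isUnit
  -- the polynomials `q_r`
  let q : ℝ → Polynomial ℂ := fun r => ∑ a ∈ (spec z D).coeff.support,
    Polynomial.monomial (lam a).toNat ((spec z D).coeff a * ((u (mpr X a) : Circle) : ℂ) *
      ∏ i, ((r : ℂ) * evR z ((s i : (RO O)ˣ) : RO O)) ^ (phi a (X.p i)).toNat)
  have hqe : ∀ (r : ℝ) (y : ℂ), (q r).eval y = mev (ι := Option ι) (u.compAddMonoidHom (mpr X)) mu
      (fun o => o.elim y fun i => (r : ℂ) * evR z ((s i : (RO O)ˣ) : RO O)) (spec z D) := by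
    intro r y
    change (∑ a ∈ (spec z D).coeff.support, _ : Polynomial ℂ).eval y = _
    rw [Polynomial.eval_finsetSum]
    unfold mev Finsupp.sum
    refine Finset.sum_congr rfl fun a _ => ?_
    have h1 : ∏ o : Option ι, (o.elim y fun i => (r : ℂ) * evR z ((s i : (RO O)ˣ) : RO O)) ^
        (mu o a).toNat = y ^ (lam a).toNat *
          ∏ i, ((r : ℂ) * evR z ((s i : (RO O)ˣ) : RO O)) ^ (phi a (X.p i)).toNat := by
      rw [Fintype.prod_option]
      rfl
    change _ = (spec z D).coeff a * ((u (mpr X a) : Circle) : ℂ) *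
      ∏ o : Option ι, (o.elim y fun i => (r : ℂ) * evR z ((s i : (RO O)ˣ) : RO O)) ^
        (mu o a).toNat
    rw [Polynomial.eval_monomial, h1]
    ring
  set m : ℕ := (spec z D).coeff.support.sup fun a => (lam a).toNat with hm
  have hdeg : ∀ r, (q r).natDegree ≤ m := by
    intro r
    refine Polynomial.natDegree_sum_le_of_forall_le _ _ fun a ha => ?_
    refine (Polynomial.natDegree_monomial_le _).trans ?_
    exact Finset.le_sup (f := fun a => (lam a).toNat) ha
  have hzf : ∀ r : ℝ, 0 ≤ r → r < 1 → ZF (q r) := by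
    intro r hr0 hr1 y hy
    rw [hqe]
    refine hM L (spec z D) hst (Option ι) mu hnn hsum _ _ fun o => ?_
    rcases o with _ | i
    · exact hy
    · change ‖(r : ℂ) * evR z ((s i : (RO O)ˣ) : RO O)‖ < 1
      rw [norm_mul, hv, mul_one, Complex.norm_real, Real.norm_eq_abs, abs_of_nonneg hr0]
      exact hr1
  have hineq : ∀ r : ℝ, 0 ≤ r → r < 1 →
      ‖(q r).eval 0‖ * (1 - ‖x‖) ^ m ≤ ‖(q r).eval x‖ := by
    intro r hr0 hr1
    have h1 := hA (q r) m (hdeg r) (hzf r hr0 hr1) x hx.le
    rwa [Polynomial.coeff_zero_eq_eval_zero] at h1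
  have hcont : ∀ y : ℂ, Continuous fun r : ℝ => (q r).eval y := by
    intro y
    have h1 : (fun r : ℝ => (q r).eval y) = fun r : ℝ => ∑ a ∈ (spec z D).coeff.support,
        ((spec z D).coeff a * ((u (mpr X a) : Circle) : ℂ) *
          ∏ i, ((r : ℂ) * evR z ((s i : (RO O)ˣ) : RO O)) ^ (phi a (X.p i)).toNat) *
          y ^ (lam a).toNat := by
      funext r
      change (∑ a ∈ (spec z D).coeff.support, _ : Polynomial ℂ).eval y = _
      rw [Polynomial.eval_finsetSum]
      exact Finset.sum_congr rfl fun a _ => Polynomial.eval_monomial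
    rw [h1]
    refine continuous_finsetSum _ fun a _ => ?_
    refine Continuous.mul ?_ continuous_const
    refine Continuous.mul continuous_const ?_
    refine continuous_finsetProd _ fun i _ => ?_
    exact (Complex.continuous_ofReal.mul continuous_const).pow _
  have hlim : ‖(q 1).eval 0‖ * (1 - ‖x‖) ^ m ≤ ‖(q 1).eval x‖ := by
    have hcl : IsClosed {r : ℝ | ‖(q r).eval 0‖ * (1 - ‖x‖) ^ m ≤ ‖(q r).eval x‖} :=
      isClosed_le (((hcont 0).norm).mul continuous_const) (hcont x).norm
    have hsub : Set.Ico (0 : ℝ) 1 ⊆ {r : ℝ | ‖(q r).eval 0‖ * (1 - ‖x‖) ^ m ≤ ‖(q r).eval x‖} :=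
      fun r hr => hineq r hr.1 hr.2
    have h1 := hcl.closure_subset_iff.mpr hsub
    rw [closure_Ico (by norm_num : (0 : ℝ) ≠ 1)] at h1
    exact h1 ⟨zero_le_one, le_refl 1⟩
  have hq1 : ∀ y : ℂ, (q 1).eval y =
      (sl u (lam.comp (incl (KK X))) (spec z (mcl X s D))).eval y := by
    intro y
    rw [← mcl_slice X s lam hZ z u D hk y, hqe]
    congr 1
    funext o
    rcases o with _ | i
    · rfl
    · change ((1 : ℝ) : ℂ) * _ = _
      rw [Complex.ofReal_one, one_mul]
      rfl
  intro h10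
  rw [hq1, hq1, h10, norm_zero, ← Polynomial.coeff_zero_eq_eval_zero,
    sl_coeff_zero (pos_spec hpos z), spec_coeff] at hlim
  have h11 : 0 < ‖evR z ((mcl X s D).coeff 0)‖ * (1 - ‖x‖) ^ m :=
    mul_pos (norm_pos_iff.mpr hz) (pow_pos (by linarith) _)
  linarith

end

end H07

end Pool.Agent.B5
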